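import Pool.Agent.H9.ZC.Zfc
import Pool.Agent.H71.GEN.Zact2

/-!
# The active velocities of full zooms in closed linear coordinates

If the coordinate `kap` is kept by the linear coordinates `C`, then the velocity of `kap` of the
zoom is as active as the velocity of `kap` of the family.
-/

set_option autoImplicit false

namespace Pool.ZLC

open Finset Real MvPolynomial
open Pool.Agent.H49.Ent Pool.Agent.H32.Dense Pool.STK Pool.KA Pool.KSAT Pool.K2S Pool.PB Pool.S6C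
open Pool.GEN Pool.ZCL

variable {m n J : ℕ} {κ : Type}

/-- The coordinates are Lipschitz functions. -/
theorem bd_lip {C : Crd m κ} {c : ℝ} (hC : C.Bd 0 c) {k : κ} {x y : Fin m → ℝ} {δ : ℝ}
    (hδ : 0 < δ) (h : ∀ j, |x j - y j| ≤ δ) (i : Fin m) : |C.L k x i - C.L k y i| ≤ c * δ := by
  have h1 := hC k (fun j => δ⁻¹ * x j) (fun j => δ⁻¹ * y j) (fun j => by
    rw [← mul_sub, abs_mul, abs_of_pos (inv_pos.2 hδ), inv_mul_le_iff₀ hδ, mul_one]
    exact h j) i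
  rw [Box.L_smul, Box.L_smul, ← mul_sub, abs_mul, abs_of_pos (inv_pos.2 hδ),
    inv_mul_le_iff₀ hδ, pow_zero, mul_one] at h1
  linarith

section

variable {F : Fam m J} {w J' : ℕ} (h : w + J' = J) (C : Crd m κ) (g : F.Ω → κ)
  (e : Fin n → Fin m)

/-- The condition of a full zoom. -/
theorem zcw_iff {ω ω' : F.Ω} : (zfc F w J' h.le C g e).W ω = (zfc F w J' h.le C g e).W ω' ↔
    F.T ω = F.T ω' ∧ F.blab w C g ω = F.blab w C g ω' := by
  have h1 := Box.T1_box F h.le C g ω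
  have h2 := Box.T1_box F h.le C g ω'
  have e1 : ∀ ω, F.T1 (w + J') ω = F.T ω := by
    intro ω
    change F.T ω / 2 ^ (J - (w + J')) = F.T ω
    rw [h, Nat.sub_self, pow_zero, Nat.div_one]
  rw [e1] at h1 h2
  constructor
  · intro hh
    have a1 := Prod.ext_iff.mp hh
    have a2 : (F.box w C g).T1 J' ω = (F.box w C g).T1 J' ω' := a1.1
    have a3 : F.blab w C g ω = F.blab w C g ω' := a1.2
    refine ⟨?_, a3⟩
    rw [h1, h2, a2, (Box.split_lab F a3).1]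
  · rintro ⟨hT, hl⟩
    refine Prod.ext ?_ hl
    change (F.box w C g).T1 J' ω = (F.box w C g).T1 J' ω'
    have h3 := (Box.split_lab F hl).1
    rw [hT, h3] at h1
    omega

/-- The positions of the zoom. -/
theorem zcx_near {ω ω' : F.Ω} (hT : F.T ω = F.T ω') (hl : F.blab w C g ω = F.blab w C g ω')
    {c : ℝ} (hC : C.Bd 0 c) (hX : F.X J ω = F.X J ω') (i : Fin n) :
    |(zfc F w J' h.le C g e).x ω i - (zfc F w J' h.le C g e).x ω' i| ≤ (c + 6) / 2 ^ J' := by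
  have pJ : (0 : ℝ) < 2 ^ J' := by positivity
  have pw : (0 : ℝ) < 2 ^ w := by positivity
  obtain ⟨b1, b2, b3, b4, b5⟩ := Box.split_lab F hl
  have c1 := zfc_x F h.le C g e ω i
  have c2 := zfc_x F h.le C g e ω' i
  have c3 : tb F w ω = tb F w ω' := by
    unfold tb Fam.t
    rw [hT, b1]
  rw [b3, b4, c3, b2] at c1
  have b6 : |2 ^ w * C.L (g ω') (F.x ω) (e i) - 2 ^ w * C.L (g ω') (F.x ω') (e i)| ≤
      c / 2 ^ J' := by
    have d1 : ∀ j, |F.x ω j - F.x ω' j| ≤ 1 / 2 ^ J := by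
      intro j
      have b6' := Plk.abs_sub_lt_of_floor (congrFun hX j :
        ⌊(2 : ℝ) ^ J * F.x ω j⌋ = ⌊(2 : ℝ) ^ J * F.x ω' j⌋)
      rw [← mul_sub, abs_mul, abs_of_pos (by positivity)] at b6'
      rw [le_div_iff₀ (by positivity)]
      linarith
    have d2 := bd_lip hC (k := g ω') (by positivity) d1 (e i)
    rw [← mul_sub, abs_mul, abs_of_pos pw]
    have e0 : (2 : ℝ) ^ J = 2 ^ w * 2 ^ J' := by rw [← h, pow_add]
    rw [e0] at d2
    calc 2 ^ w * |C.L (g ω') (F.x ω) (e i) - C.L (g ω') (F.x ω') (e i)| ≤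
          2 ^ w * (c * (1 / (2 ^ w * 2 ^ J'))) := mul_le_mul_of_nonneg_left d2 pw.le
      _ = c / 2 ^ J' := by
          field_simp
  have e1 : (c + 6) / 2 ^ J' = 3 / 2 ^ J' + 3 / 2 ^ J' + c / 2 ^ J' := by ring
  rw [e1]
  rw [abs_le] at b6 c1 c2 ⊢
  constructor <;> linarith [b6.1, b6.2, c1.1, c1.2, c2.1, c2.2]

/-- The digits of a velocity which is kept. -/
theorem zcd_eq {kap : Fin m} (hk : ∀ k x, C.L k x kap = x kap) {k : ℕ} (hkJ : k ≤ J') (ω : F.Ω)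
    {i : Fin n} (hi : e i = kap) : (zfc F w J' h.le C g e).D k ω i =
      F.D k ω kap - 2 ^ k * F.bvl C g ω kap := by
  have e1 : F.bvl C g ω kap = vl F ω kap := by
    have a1 : F.bvl C g ω kap = ⌊(2 : ℝ) ^ 0 * C.L (g ω) (F.d ω) kap⌋ := rfl
    rw [a1, hk]
    rfl
  have e2 : (zfc F w J' h.le C g e).D k ω i = (zf F w J' h.le g e).D k ω i := by
    have a1 : (zfc F w J' h.le C g e).d ω i = (zf F w J' h.le g e).d ω i := by
      change (⌊(2 : ℝ) ^ J' * Int.fract (C.L (g ω) (F.d ω) (e i))⌋ : ℝ) / 2 ^ J' =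
        (⌊(2 : ℝ) ^ J' * Int.fract (F.d ω (e i))⌋ : ℝ) / 2 ^ J'
      rw [hi, hk]
    change ⌊(2 : ℝ) ^ k * (zfc F w J' h.le C g e).d ω i⌋ =
      ⌊(2 : ℝ) ^ k * (zf F w J' h.le g e).d ω i⌋
    rw [a1]
  rw [e1, e2, zd_eq h g e hkJ ω i, hi]

/-- **The active velocities of a full zoom** in closed linear coordinates. -/
theorem zfc_act {q : F.Ω → ℝ} (hq : IsLaw q) (hg : Det q (fun ω => (F.X J ω, F.W ω)) g)
    {c : ℝ} (hC : C.Bd 0 c) {kap : Fin m} (hk : ∀ k x, C.L k x kap = x kap)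
    {a b : ℕ} (ha : a ≤ J') (hb : b ≤ J') {i : Fin n} (hi : e i = kap) :
    CH q (fun ω => F.D b ω kap) (fun ω => (F.D a ω, (F.X J ω, F.W ω))) ≤
      CH q (fun ω => (zfc F w J' h.le C g e).D b ω i)
        (fun ω => ((zfc F w J' h.le C g e).D a ω,
        ((zfc F w J' h.le C g e).X J' ω, (zfc F w J' h.le C g e).W ω))) +
      (m * Real.log (2 * (2 * c + c + 1) + 3) + m * Real.log (2 * (2 * c + 1) + 3) +
        n * Real.log (2 * (c + 6) + 3) + n * Real.log (2 * (c + 2) + 3)) := by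
  have h0 := hq.nonneg
  have hw : w ≤ J := by omega
  have pw : (0 : ℝ) < 2 ^ w := by positivity
  obtain ⟨B, hB⟩ : ∃ B, B = fun ω => (F.D a ω, (F.X J ω, F.W ω)) := ⟨_, rfl⟩
  obtain ⟨B₁, hB₁⟩ : ∃ B₁, B₁ = fun ω => (F.bcl w C g ω, B ω) := ⟨_, rfl⟩
  obtain ⟨B₂, hB₂⟩ : ∃ B₂, B₂ = fun ω => (F.bvl C g ω, B₁ ω) := ⟨_, rfl⟩
  obtain ⟨B₃, hB₃⟩ : ∃ B₃, B₃ = fun ω => ((zfc F w J' h.le C g e).X J' ω, B₂ ω) := ⟨_, rfl⟩
  obtain ⟨A, hA⟩ : ∃ A, A = fun ω => F.D b ω kap := ⟨_, rfl⟩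
  -- the value of the condition
  have d0 : ∀ ω ω', B ω = B ω' → F.D a ω = F.D a ω' ∧ F.X J ω = F.X J ω' ∧ F.T ω = F.T ω' ∧
      F.Z ω = F.Z ω' := by
    intro ω ω' hh
    rw [hB] at hh
    have a1 := Prod.ext_iff.mp hh
    have a2 := Prod.ext_iff.mp a1.2
    have a3 := Prod.ext_iff.mp a2.2
    exact ⟨a1.1, a2.1, a3.1, a3.2⟩
  have dg : ∀ ω ω', 0 < q ω → 0 < q ω' → B ω = B ω' → g ω = g ω' := by
    intro ω ω' hω hω' hh
    obtain ⟨b1, b2, b3, b4⟩ := d0 ω ω' hh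
    exact hg ω ω' hω hω' (Prod.ext b2 (Prod.ext b3 b4))
  have d1 : ∀ ω ω', B₂ ω = B₂ ω' → F.bvl C g ω = F.bvl C g ω' ∧
      F.bcl w C g ω = F.bcl w C g ω' ∧ B ω = B ω' := by
    intro ω ω' hh
    rw [hB₂] at hh
    have a1 := Prod.ext_iff.mp hh
    have a2' : B₁ ω = B₁ ω' := a1.2
    rw [hB₁] at a2'
    have a2 := Prod.ext_iff.mp a2'
    exact ⟨a1.1, a2.1, a2.2⟩
  have d2 : ∀ ω ω', 0 < q ω → 0 < q ω' → B₂ ω = B₂ ω' → F.T ω = F.T ω' ∧
      F.blab w C g ω = F.blab w C g ω' := by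
    intro ω ω' hω hω' hh
    obtain ⟨a1, a2, a3⟩ := d1 ω ω' hh
    obtain ⟨b1, b2, b3, b4⟩ := d0 ω ω' a3
    refine ⟨b3, ?_⟩
    have c1 : F.T1 w ω = F.T1 w ω' := by
      unfold Fam.T1
      rw [b3]
    have c2 := dg ω ω' hω hω' a3
    unfold Fam.blab
    rw [c1, c2, a2, a1, b4]
  -- the positions and the velocities
  have dd : ∀ ω ω', 0 < q ω → 0 < q ω' → B ω = B ω' → ∀ i,
      |C.L (g ω) (F.d ω) i - C.L (g ω) (F.d ω') i| ≤ 2 * c ∧
      |2 ^ w * C.L (g ω) (F.x ω) i - 2 ^ w * C.L (g ω) (F.x ω') i| ≤ c := by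
    intro ω ω' _ _ hh i
    obtain ⟨b1, b2, b3, b4⟩ := d0 ω ω' hh
    constructor
    · have c1 := bd_lip hC (k := g ω) (x := F.d ω) (y := F.d ω') (δ := 2) (by norm_num)
        (fun j => by
          have a1 := abs_le.1 (F.dir ω j)
          have a2 := abs_le.1 (F.dir ω' j)
          rw [abs_le]
          constructor <;> linarith) i
      linarith
    · have c1 : ∀ j, |F.x ω j - F.x ω' j| ≤ 1 / 2 ^ w := by
        intro j
        have b6' := Plk.abs_sub_lt_of_floor (congrFun b2 j :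
          ⌊(2 : ℝ) ^ J * F.x ω j⌋ = ⌊(2 : ℝ) ^ J * F.x ω' j⌋)
        rw [← mul_sub, abs_mul, abs_of_pos (by positivity)] at b6'
        rw [le_div_iff₀ pw]
        have c2 : (2 : ℝ) ^ w ≤ 2 ^ J := pow_le_pow_right₀ one_le_two hw
        have c3 := mul_le_mul_of_nonneg_left c2 (abs_nonneg (F.x ω j - F.x ω' j))
        linarith
      have c2 := bd_lip hC (k := g ω) (by positivity) c1 i
      rw [← mul_sub, abs_mul, abs_of_pos pw]
      calc 2 ^ w * |C.L (g ω) (F.x ω) i - C.L (g ω) (F.x ω') i| ≤ 2 ^ w * (c * (1 / 2 ^ w)) :=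
            mul_le_mul_of_nonneg_left c2 pw.le
        _ = c := by field_simp
  -- the steps
  have s1 := CH_le_add h0 A (F.bcl w C g) B
  have s2 := CH_le_add h0 A (F.bvl C g) B₁
  have s3 := CH_le_add h0 A ((zfc F w J' h.le C g e).X J') B₂
  have s4 := CH_le_add h0 A ((zfc F w J' h.le C g e).D a) B₃
  have t1 : CH q (F.bcl w C g) B ≤ m * Real.log (2 * (2 * c + c + 1) + 3) := by
    have key := ENP.CH_fl hq 0 (fun ω i => (F.bcl w C g ω i : ℝ)) B (2 * c + c + 1) (by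
      intro ω ω' hω hω' hh i
      have c1 := (Box.blab_near F hw (d0 ω ω' hh).2.2.1 (dg ω ω' hω hω' hh)
        (fun i => (dd ω ω' hω hω' hh i).1) (fun i => (dd ω ω' hω hω' hh i).2) i).2
      push_cast at c1
      rw [pow_zero, div_one]
      exact c1)
    have e1 : (fun ω => fl 0 (fun i => (F.bcl w C g ω i : ℝ))) = F.bcl w C g := by
      funext ω i
      change ⌊(2 : ℝ) ^ 0 * (F.bcl w C g ω i : ℝ)⌋ = F.bcl w C g ω i
      rw [pow_zero, one_mul, Int.floor_intCast]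
    rw [e1] at key
    exact key
  have t2 : CH q (F.bvl C g) B₁ ≤ m * Real.log (2 * (2 * c + 1) + 3) := by
    have key := ENP.CH_fl hq 0 (fun ω i => (F.bvl C g ω i : ℝ)) B₁ (2 * c + 1) (by
      intro ω ω' hω hω' hh' i
      have hh : B ω = B ω' := by
        rw [hB₁] at hh'
        exact (Prod.ext_iff.mp hh').2
      have c1 := (Box.blab_near F hw (d0 ω ω' hh).2.2.1 (dg ω ω' hω hω' hh)
        (fun i => (dd ω ω' hω hω' hh i).1) (fun i => (dd ω ω' hω hω' hh i).2) i).1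
      push_cast at c1
      rw [pow_zero, div_one]
      exact c1)
    have e1 : (fun ω => fl 0 (fun i => (F.bvl C g ω i : ℝ))) = F.bvl C g := by
      funext ω i
      change ⌊(2 : ℝ) ^ 0 * (F.bvl C g ω i : ℝ)⌋ = F.bvl C g ω i
      rw [pow_zero, one_mul, Int.floor_intCast]
    rw [e1] at key
    exact key
  have t3 : CH q ((zfc F w J' h.le C g e).X J') B₂ ≤ n * Real.log (2 * (c + 6) + 3) := by
    refine ENP.CH_fl hq J' (zfc F w J' h.le C g e).x B₂ (c + 6) ?_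
    intro ω ω' hω hω' hh i
    have b2 := d2 ω ω' hω hω' hh
    exact zcx_near h C g e b2.1 b2.2 hC (d0 ω ω' (d1 ω ω' hh).2.2).2.1 i
  have t4 : CH q ((zfc F w J' h.le C g e).D a) B₃ ≤ n * Real.log (2 * (c + 2) + 3) := by
    refine ENP.CH_fl hq a (zfc F w J' h.le C g e).d B₃ (c + 2) ?_
    intro ω ω' hω hω' hh i
    have hh2 : B₂ ω = B₂ ω' := by
      rw [hB₃] at hh
      exact (Prod.ext_iff.mp hh).2
    obtain ⟨f1, f2, f3⟩ := d1 ω ω' hh2
    have f4 := dg ω ω' hω hω' f3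
    have pa : (0 : ℝ) < 2 ^ a := by positivity
    have g1 := zfc_d F h.le C g e ω i
    have g2 := zfc_d F h.le C g e ω' i
    rw [f1, f4] at g1
    have g3 : ∀ j, |F.d ω j - F.d ω' j| ≤ 1 / 2 ^ a := by
      intro j
      have b6' := Plk.abs_sub_lt_of_floor (congrFun (d0 ω ω' f3).1 j :
        ⌊(2 : ℝ) ^ a * F.d ω j⌋ = ⌊(2 : ℝ) ^ a * F.d ω' j⌋)
      rw [← mul_sub, abs_mul, abs_of_pos (by positivity)] at b6'
      rw [le_div_iff₀ pa]
      linarith
    have g4 := bd_lip hC (k := g ω') (by positivity) g3 (e i)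
    have g5 : (1 : ℝ) / 2 ^ J' ≤ 1 / 2 ^ a := inv_mono ha
    have e1 : (c + 2) / 2 ^ a = c * (1 / 2 ^ a) + 1 / 2 ^ a + 1 / 2 ^ a := by ring
    rw [e1]
    rw [abs_le] at g1 g2 g4 ⊢
    constructor <;> linarith [g1.1, g1.2, g2.1, g2.2, g4.1, g4.2]
  have t5 : CH q A (fun ω => ((zfc F w J' h.le C g e).D a ω, B₃ ω)) ≤
      CH q (fun ω => (zfc F w J' h.le C g e).D b ω i)
        (fun ω => ((zfc F w J' h.le C g e).D a ω,
        ((zfc F w J' h.le C g e).X J' ω, (zfc F w J' h.le C g e).W ω))) := by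
    have hv : ∀ ω ω', ((zfc F w J' h.le C g e).D a ω, B₃ ω) =
        ((zfc F w J' h.le C g e).D a ω', B₃ ω') → F.bvl C g ω = F.bvl C g ω' ∧
        (zfc F w J' h.le C g e).D a ω = (zfc F w J' h.le C g e).D a ω' ∧
        (zfc F w J' h.le C g e).X J' ω = (zfc F w J' h.le C g e).X J' ω' ∧ B₂ ω = B₂ ω' := by
      intro ω ω' hh
      have a1 := Prod.ext_iff.mp hh
      have a2 : B₃ ω = B₃ ω' := a1.2
      rw [hB₃] at a2
      have a3 := Prod.ext_iff.mp a2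
      exact ⟨(d1 ω ω' a3.2).1, a1.1, a3.1, a3.2⟩
    have u1 : CH q A (fun ω => ((zfc F w J' h.le C g e).D a ω, B₃ ω)) =
        CH q (fun ω => (zfc F w J' h.le C g e).D b ω i)
          (fun ω => ((zfc F w J' h.le C g e).D a ω, B₃ ω)) := by
      refine CH_congr h0 ?_ ?_ (fun _ _ _ _ hh => hh) (fun _ _ _ _ hh => hh)
      · intro ω ω' _ _ hh
        have a1 := Prod.ext_iff.mp hh
        have a3 := hv ω ω' a1.2
        change (zfc F w J' h.le C g e).D b ω i = (zfc F w J' h.le C g e).D b ω' i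
        have a4 : A ω = A ω' := a1.1
        rw [hA] at a4
        simp only at a4
        rw [zcd_eq h C g e hk hb ω hi, zcd_eq h C g e hk hb ω' hi, a4, a3.1]
      · intro ω ω' _ _ hh
        have a1 := Prod.ext_iff.mp hh
        have a3 := hv ω ω' a1.2
        change A ω = A ω'
        rw [hA]
        simp only
        have a4 : (zfc F w J' h.le C g e).D b ω i = (zfc F w J' h.le C g e).D b ω' i := a1.1
        rw [zcd_eq h C g e hk hb ω hi, zcd_eq h C g e hk hb ω' hi, a3.1] at a4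
        linarith
    rw [u1]
    refine CH_mono_cond h0 ?_
    intro ω ω' hω hω' hh
    have a3 := hv ω ω' hh
    exact Prod.ext a3.2.1 (Prod.ext a3.2.2.1 ((zcw_iff h C g e).2 (d2 ω ω' hω hω' a3.2.2.2)))
  rw [← hB, ← hA]
  have v1 : CH q A (fun ω => (F.bcl w C g ω, B ω)) = CH q A B₁ := by rw [hB₁]
  have v2 : CH q A (fun ω => (F.bvl C g ω, B₁ ω)) = CH q A B₂ := by rw [hB₂]
  have v3 : CH q A (fun ω => ((zfc F w J' h.le C g e).X J' ω, B₂ ω)) = CH q A B₃ := by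
    rw [hB₃]
    rfl
  rw [v1] at s1
  rw [v2] at s2
  rw [v3] at s3
  linarith

end

end Pool.ZLC
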