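import Pool.Agent.H9.ZC.Zsh
import Pool.Agent.H1.GEN.One

/-!
# Properties which can be transferred: many events, chains, total labels

`gpr_many`: there is no part of a given proportion with a hereditary property.
`gpr_chn`: chains of two-sided labels with any gradients. `upr_tgs`: labels over any list of the
other coordinates.
-/

set_option autoImplicit false

namespace Pool.ZLC

open Finset Real MvPolynomial
open Pool.Agent.H49.Ent Pool.Agent.H32.Dense Pool.STK Pool.KA Pool.KSAT Pool.K2S Pool.PB Pool.S6C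
open Pool.GEN Pool.ZCL Pool.TOP Pool.LBN

variable {m n J : ℕ} {V : Type}

/-! ### Parts of a given proportion -/

/-- The probability is the mean of the probabilities in the sections. -/
theorem pe_mean {Ω : Type} [Fintype Ω] {p : Ω → ℝ} (hp : IsLaw p) (c : Ω → V) (B : Ω → Prop) :
    Pe p B = ∑ ω, p ω * Pe (cond p c (c ω)) B := by
  classical
  have h1 : Pe p B = Ex p (fun ω => Pool.KAF.Pr (cond p c (c ω)) {ω | B ω}) := by
    rw [Pool.KAL.CDF.Ex_Pr hp.nonneg]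
    rfl
  rw [h1]
  rfl

/-- **There is no part of a given proportion** with the property `P`. -/
theorem gpr_many {P : ∀ F : Fam n J, (F.Ω → Prop) → Prop} (her : ∀ F, Hered (P F))
    (hp : ∀ (G : Fam n J) (κ : Type) (c : G.Ω → κ) (v : κ) (hl : IsLaw (cond G.p c v))
      (B : G.Ω → Prop), P G B → P (G.res c v hl) B) {K₁ : ℝ} :
    GPr (fun F A => ∀ B : F.Ω → Prop, Sub B A → Pe F.p A ≤ K₁ * Pe F.p B → ¬ P F B) := by
  classical
  refine ⟨fun F A h B hB hP => ?_, fun G κ c B₀ hS hB0 h B hB hP hPB => ?_,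
    fun G E hE B h B' hB' hP hPB => ?_⟩
  · refine h B (fun ω hω => (hB ω hω).1) ?_
    rw [Pe_supp] at hP
    exact hP
  · -- the sections
    have key : ∀ ω, 0 < G.p ω → B₀ ω → K₁ * Pe (cond G.p c (c ω)) B <
        Pe (cond G.p c (c ω)) B₀ := by
      intro ω hω hBω
      by_contra hcon
      push Not at hcon
      have hl := isLaw_sec G.isLaw c hω
      have e1 : ∀ D : G.Ω → Prop, Pe (cond G.p c (c ω)) (fun ω' => D ω' ∧ c ω' = c ω) =
          Pe (cond G.p c (c ω)) D := by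
        intro D
        rw [← Pe_supp _ (fun ω' => D ω' ∧ c ω' = c ω), ← Pe_supp _ D]
        congr 1
        funext ω'
        refine propext ⟨fun h1 => ⟨h1.1.1, h1.2⟩, fun h1 => ⟨⟨h1.1, ?_⟩, h1.2⟩⟩
        exact ((cond_pos_iff G.isLaw.nonneg c (c ω) ω').1
          (lt_of_le_of_ne (hl.nonneg ω') (Ne.symm h1.2))).2
      refine h ω hω hBω hl (fun ω' => B ω' ∧ c ω' = c ω) (fun ω' hω' =>
        ⟨(hB ω' hω'.1).1, hω'.2⟩) ?_ (her _ _ _ (fun ω' hω' => hω'.1) (hp G κ c (c ω) hl B hPB))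
      have h5 : Pe (cond G.p c (c ω)) (fun ω' => B₀ ω' ∧ c ω' = c ω) ≤
          K₁ * Pe (cond G.p c (c ω)) (fun ω' => B ω' ∧ c ω' = c ω) := by
        rw [e1, e1]
        exact hcon
      exact h5
    have key2 : ∀ ω, 0 < G.p ω → K₁ * Pe (cond G.p c (c ω)) B ≤ Pe (cond G.p c (c ω)) B₀ := by
      intro ω hω
      have hl := isLaw_sec G.isLaw c hω
      rcases (Pe_nonneg hl B₀).eq_or_lt with h0 | h0
      · have h1 : Pe (cond G.p c (c ω)) B ≤ Pe (cond G.p c (c ω)) B₀ :=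
          Pe_mono hl fun ω' hω' => (hB ω' hω').1
        have h2 : Pe (cond G.p c (c ω)) B = 0 := le_antisymm (by linarith) (Pe_nonneg hl B)
        rw [h2, mul_zero]
        exact h0.le
      · obtain ⟨ω', h1, h2⟩ := exists_pos h0
        have h3 := (cond_pos_iff G.isLaw.nonneg c (c ω) ω').1 h1
        have h4 := key ω' h3.1 h2
        rw [h3.2] at h4
        exact h4.le
    rw [Pe_supp, pe_mean G.isLaw c B₀, pe_mean G.isLaw c B, Finset.mul_sum] at hP
    obtain ⟨ω₀, h1, h2⟩ := exists_pos hB0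
    have h3 : ∑ ω, K₁ * (G.p ω * Pe (cond G.p c (c ω)) B) <
        ∑ ω, G.p ω * Pe (cond G.p c (c ω)) B₀ := by
      refine Finset.sum_lt_sum (fun ω _ => ?_) ⟨ω₀, Finset.mem_univ _, ?_⟩
      · rcases (G.isLaw.nonneg ω).eq_or_lt with h0 | h0
        · rw [← h0, zero_mul, zero_mul, mul_zero]
        · have h4 := mul_le_mul_of_nonneg_left (key2 ω h0) h0.le
          linarith
      · have h4 := mul_lt_mul_of_pos_left (key ω₀ h1 h2) h1
        linarith
    linarith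
  · have hE0 : 0 < Pe G.p E := by
      have h1 := hE.sum_one
      by_contra hcon
      have h2 : Pe G.p E = 0 := le_antisymm (not_lt.1 hcon) (Pe_nonneg G.isLaw E)
      have h3 : Pe (cond G.p E True) (fun _ => True) = 1 := Pe_univ hE
      rw [Pe_cond, h2, div_zero] at h3
      exact zero_ne_one h3
    refine h B' (fun ω hω => (hB' ω hω).2) ?_ (hp G Prop E True hE B' hPB)
    change Pe (cond G.p E True) B ≤ K₁ * Pe (cond G.p E True) B'
    rw [Pe_cond, Pe_cond]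
    have e1 : (fun ω => E ω ∧ B' ω) = B' := by
      funext ω
      exact propext ⟨fun h1 => h1.2, fun h1 => ⟨(hB' ω h1).1, h1⟩⟩
    rw [e1, ← mul_div_assoc]
    exact div_le_div_of_nonneg_right hP hE0.le

/-! ### Chains -/

/-- **Chains with any gradients.** -/
theorem gpr_chn (c : ℕ → Fin n) (r : ℕ) (K : ℕ → ℕ) (a w : ℕ) (g : ℕ → ℕ) :
    GPr (fun (F : Fam n J) A => ∃ e : ℕ, ChN F c r K a w e g A) := by
  classical
  refine ⟨fun F A h => ?_, fun G κ k B hS hB h => ?_, fun G E hE B h => ?_⟩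
  · obtain ⟨e, h⟩ := h
    exact ⟨e, ChN.hered F c r K a w e g _ _ (fun ω hω => hω.1) h⟩
  · have h0 : ∀ ω, ∃ (e : ℕ) (G' : PtT G → ℕ → MvPolynomial (Option (Fin n)) ℝ)
        (H' : LnT G → ℕ → MvPolynomial (Option (Fin n)) ℝ), 0 < G.p ω → B ω →
        ∀ hl : IsLaw (cond G.p k (k ω)),
          ChOK (G.res k (k ω) hl) c r K a w e g (fun ω' => B ω' ∧ k ω' = k ω) G' H' := by
      intro ω
      by_cases hω : 0 < G.p ω ∧ B ω
      · obtain ⟨e, G', H', h1⟩ := h ω hω.1 hω.2 (isLaw_sec G.isLaw k hω.1)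
        exact ⟨e, G', H', fun _ _ _ => h1⟩
      · exact ⟨0, fun _ _ => 0, fun _ _ => 0, fun h1 h2 => absurd ⟨h1, h2⟩ hω⟩
    choose e G' H' hOK using h0
    obtain ⟨f, hf⟩ : ∃ f : G.ζ → Option G.Ω, ∀ ω, 0 < G.p ω → B ω →
        ∃ ω₀, f (G.Z ω) = some ω₀ ∧ 0 < G.p ω₀ ∧ B ω₀ ∧ G.Z ω₀ = G.Z ω := by
      refine ⟨fun s => if hs : ∃ ω, 0 < G.p ω ∧ B ω ∧ G.Z ω = s then some hs.choose else none,
        fun ω hω hBω => ?_⟩
      have hs : ∃ ω', 0 < G.p ω' ∧ B ω' ∧ G.Z ω' = G.Z ω := ⟨ω, hω, hBω, rfl⟩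
      refine ⟨hs.choose, dif_pos hs, hs.choose_spec.1, hs.choose_spec.2.1, hs.choose_spec.2.2⟩
    obtain ⟨e₁, he₁⟩ : ∃ e₁ : ℕ, ∀ ω, e ω ≤ e₁ := by
      refine ⟨∑ ω, e ω, fun ω => ?_⟩
      exact Finset.single_le_sum (f := e) (fun _ _ => Nat.zero_le _) (Finset.mem_univ ω)
    refine ⟨e₁, fun y i => match f y.2.2 with
      | none => 0
      | some ω₀ => if 0 < G.p ω₀ ∧ B ω₀ then G' ω₀ y i else 0,
      fun s i => match f s.2.1 with
      | none => 0
      | some ω₀ => if 0 < G.p ω₀ ∧ B ω₀ then H' ω₀ s i else 0, ?_⟩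
    have hdep : ∀ i, DepC c i (0 : MvPolynomial (Option (Fin n)) ℝ) := by
      intro i b b' _ _
      rw [map_zero, map_zero]
    have hfit : ∀ ω, B ω ∧ G.p ω ≠ 0 → ∃ ω₀, f (G.Z ω) = some ω₀ ∧ 0 < G.p ω₀ ∧ B ω₀ ∧
        (B ω ∧ k ω = k ω₀) := by
      intro ω hω
      have hω' : 0 < G.p ω := lt_of_le_of_ne (G.isLaw.nonneg ω) (Ne.symm hω.2)
      obtain ⟨ω₀, h1, h2, h3, h4⟩ := hf ω hω' hω.1
      exact ⟨ω₀, h1, h2, h3, hω.1, (hS.2 ω₀ ω h3 hω.1 h4).symm⟩
    constructor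
    · intro y i
      split
      · rw [totalDegree_zero]
        exact Nat.zero_le _
      · split_ifs with h1
        · exact (hOK _ h1.1 h1.2 (isLaw_sec G.isLaw k h1.1)).degG y i
        · rw [totalDegree_zero]
          exact Nat.zero_le _
    · intro s i
      split
      · rw [totalDegree_zero]
        exact Nat.zero_le _
      · split_ifs with h1
        · exact (hOK _ h1.1 h1.2 (isLaw_sec G.isLaw k h1.1)).degH s i
        · rw [totalDegree_zero]
          exact Nat.zero_le _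
    · intro y i
      split
      · exact hdep i
      · split_ifs with h1
        · exact (hOK _ h1.1 h1.2 (isLaw_sec G.isLaw k h1.1)).depG y i
        · exact hdep i
    · intro s i
      split
      · exact hdep i
      · split_ifs with h1
        · exact (hOK _ h1.1 h1.2 (isLaw_sec G.isLaw k h1.1)).depH s i
        · exact hdep i
    · intro ω hω i hi
      obtain ⟨ω₀, h1, h2, h3, h4⟩ := hfit ω hω
      have e1 : (ptr G J ω).2.2 = G.Z ω := rfl
      simp only [e1, h1, if_pos (And.intro h2 h3)]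
      exact (hOK ω₀ h2 h3 (isLaw_sec G.isLaw k h2)).pos ω h4 i hi
    · intro ω hω i hi b hb
      obtain ⟨ω₀, h1, h2, h3, h4⟩ := hfit ω hω
      have e1 : (ptr G J ω).2.2 = G.Z ω := rfl
      have e2 : (slam G w ω).2.1 = G.Z ω := rfl
      simp only [e1, e2, h1, if_pos (And.intro h2 h3)] at hb ⊢
      exact (hOK ω₀ h2 h3 (isLaw_sec G.isLaw k h2)).agr ω h4 i hi b hb
    · intro ω hω i hi b hb l hl
      obtain ⟨ω₀, h1, h2, h3, h4⟩ := hfit ω hω
      have e1 : (ptr G J ω).2.2 = G.Z ω := rfl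
      simp only [e1, h1, if_pos (And.intro h2 h3)] at hb ⊢
      refine ((hOK ω₀ h2 h3 (isLaw_sec G.isLaw k h2)).lip ω h4 i hi b hb l hl).trans ?_
      exact pow_le_pow_right₀ one_le_two (Nat.add_le_add_right (he₁ ω₀) _)
  · obtain ⟨e, G', H', h⟩ := h
    exact ⟨e, G', H', h.degG, h.degH, h.depG, h.depH, fun ω hω => h.pos ω hω.2,
      fun ω hω => h.agr ω hω.2, fun ω hω => h.lip ω hω.2⟩

/-! ### Subexponential numbers -/

/-- The numbers are subexponential. -/
def SubE (f : ℕ → ℝ) : Prop :=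
  ∀ e : ℝ, 0 < e → ∃ J₀ : ℕ, ∀ J ≥ J₀, f J ≤ Real.exp (e * J)

theorem SubE.mul {f g : ℕ → ℝ} (hf : SubE f) (hg : SubE g)
    (hg0 : ∀ J, 0 ≤ g J) : SubE (fun J => f J * g J) := by
  intro e he
  obtain ⟨J₁, h1⟩ := hf (e / 2) (half_pos he)
  obtain ⟨J₂, h2⟩ := hg (e / 2) (half_pos he)
  refine ⟨max J₁ J₂, fun J hJ => ?_⟩
  have h3 : Real.exp (e * J) = Real.exp (e / 2 * J) * Real.exp (e / 2 * J) := by
    rw [← Real.exp_add]
    congr 1
    ring
  rw [h3]
  exact mul_le_mul (h1 J ((le_max_left _ _).trans hJ)) (h2 J ((le_max_right _ _).trans hJ))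
    (hg0 J) (Real.exp_pos _).le

theorem SubE.const (c : ℝ) : SubE (fun _ => c) := by
  intro e he
  obtain ⟨J₀, hJ₀⟩ := exists_nat_ge (c / e)
  refine ⟨J₀, fun J hJ => ?_⟩
  have h1 : c / e ≤ J := hJ₀.trans (by exact_mod_cast hJ)
  rw [div_le_iff₀ he] at h1
  have h2 := Real.add_one_le_exp (e * J)
  linarith

theorem SubE.lin : SubE (fun J => (J : ℝ) + 1) := by
  intro e he
  obtain ⟨J₀, hJ₀⟩ := exists_nat_ge (2 / e ^ 2)
  refine ⟨max J₀ 1, fun J hJ => ?_⟩
  have h1 : 2 / e ^ 2 ≤ J := hJ₀.trans (by exact_mod_cast (le_max_left _ _).trans hJ)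
  have h4 : (1 : ℝ) ≤ J := by exact_mod_cast (le_max_right _ _).trans hJ
  rw [div_le_iff₀ (by positivity)] at h1
  have h2 := Real.quadratic_le_exp_of_nonneg (x := e * J) (by positivity)
  have h3 : 2 * (J : ℝ) ≤ (e * J) ^ 2 := by
    calc 2 * (J : ℝ) ≤ (J * e ^ 2) * J := mul_le_mul_of_nonneg_right h1 (by linarith)
      _ = (e * J) ^ 2 := by ring
  have h5 : 0 ≤ e * (J : ℝ) := by positivity
  linarith

theorem SubE.pow {f : ℕ → ℝ} (hf : SubE f) (hf0 : ∀ J, 0 ≤ f J) (k : ℕ) :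
    SubE (fun J => f J ^ k) := by
  induction k with
  | zero =>
    simp only [pow_zero]
    exact SubE.const 1
  | succ k ih =>
    simp only [pow_succ]
    exact ih.mul hf hf0

/-! ### Total labels -/

/-- The precisions of a chain. -/
def gof (J : ℕ) (g : Fin (n + 1) → Fin (J + 1)) (i : ℕ) : ℕ :=
  if h : i < n + 1 then (g ⟨i, h⟩ : ℕ) else 0

/-- The total labels with given integers. -/
def tgR (k : Fin n) (K : ℕ) (a w P : ℕ → ℕ) (J : ℕ)
    (x : {l : List (Fin n) // l.Nodup} × ((Fin (J + 1) × Fin (J + 1)) ×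
      (Fin (n + 1) → Fin (J + 1)))) (F : Fam n J) (A : F.Ω → Prop) : Prop :=
  (k ∉ x.1.1 ∧ (x.2.1.2 : ℕ) ≤ x.2.1.1 ∧ (x.2.1.1 : ℕ) ≤ a J ∧ (x.2.1.2 : ℕ) ≤ w J ∧
    P J + x.2.1.1 ≤ gof J x.2.2 x.1.1.length + a J) ∧
  ∃ e : ℕ, ChN F (cof x.1.1 k) (x.1.1.length + 1) (fun _ => K) x.2.1.1 x.2.1.2 e
    (gof J x.2.2) A

/-- **The labels over any list of the other coordinates.** -/
theorem upr_tgs (k : Fin n) (K : ℕ) (a w P : ℕ → ℕ) (ha : ∀ J, a J ≤ J) :
    UPr (fun J F A => (Pool.ONE.tgs k).T () K (a J) (w J) (P J) J F A) := by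
  classical
  refine ⟨fun J => {l : List (Fin n) // l.Nodup} × ((Fin (J + 1) × Fin (J + 1)) ×
    (Fin (n + 1) → Fin (J + 1))), fun J => inferInstance, tgR k K a w P, ?_, ?_, ?_⟩
  · have h1 : SubE (fun J => (Fintype.card {l : List (Fin n) // l.Nodup} : ℝ) *
        ((((J : ℝ) + 1) * ((J : ℝ) + 1)) * ((J : ℝ) + 1) ^ (n + 1))) := by
      have p0 : ∀ J : ℕ, (0 : ℝ) ≤ (J : ℝ) + 1 := fun J => by positivity
      exact (SubE.const _).mul ((SubE.lin.mul SubE.lin p0).mul (SubE.lin.pow p0 (n + 1))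
        (fun J => by positivity)) (fun J => by positivity)
    intro e he
    obtain ⟨J₀, hJ₀⟩ := h1 e he
    refine ⟨J₀, fun J hJ => le_trans (le_of_eq ?_) (hJ₀ J hJ)⟩
    rw [Fintype.card_prod, Fintype.card_prod, Fintype.card_prod, Fintype.card_fun,
      Fintype.card_fin, Fintype.card_fin]
    push_cast
    ring
  · intro J x
    exact gpr_const (gpr_chn (cof x.1.1 k) (x.1.1.length + 1) (fun _ => K) x.2.1.1 x.2.1.2
      (gof J x.2.2))
  · intro J F A
    constructor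
    · rintro ⟨l, h1, h2, a₀, w₀, e, g, h3, h4, h5, h6, h7, h8⟩
      have hlen : l.length ≤ n := by
        have := h1.length_le_card
        rwa [Fintype.card_fin] at this
      have hgg : ∀ i < l.length + 1, gof J (fun i : Fin (n + 1) =>
          (⟨min (g i) J, by omega⟩ : Fin (J + 1))) i = g i := by
        intro i hi
        unfold gof
        rw [dif_pos (by omega)]
        exact min_eq_left (h7 i (by omega))
      have hJa := ha J
      refine ⟨(⟨l, h1⟩, ((⟨a₀, by omega⟩, ⟨w₀, by omega⟩),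
        fun i => ⟨min (g i) J, by omega⟩)), ⟨h2, h3, h4, h5, ?_⟩, e, ?_⟩
      · change P J + a₀ ≤ gof J _ l.length + a J
        rw [hgg l.length (Nat.lt_succ_self _)]
        exact h6
      · exact chn_congr h8 (fun _ _ => rfl) (fun _ _ => le_rfl) (fun i hi => (hgg i hi).symm)
    · rintro ⟨⟨⟨l, h1⟩, ⟨a₀, w₀⟩, g⟩, ⟨h2, h3, h4, h5, h6⟩, e, h8⟩
      refine ⟨l, h1, h2, a₀, w₀, e, gof J g, h3, h4, h5, h6, fun i _ => ?_, h8⟩
      unfold gof
      split_ifs with h9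
      · have := (g ⟨i, h9⟩).2
        omega
      · exact Nat.zero_le _

/-- Chains do not depend on the law. -/
theorem chn_free {G : Fam n J} {κ : Type} {k : G.Ω → κ} {v : κ} (hl : IsLaw (cond G.p k v))
    {B : G.Ω → Prop} {c : ℕ → Fin n} {r : ℕ} {K : ℕ → ℕ} {a w e : ℕ} {g : ℕ → ℕ}
    (h : ChN G c r K a w e g B) : ChN (G.res k v hl) c r K a w e g B := by
  obtain ⟨G', H', h⟩ := h
  exact ⟨G', H', h.degG, h.degH, h.depG, h.depH, h.pos, h.agr, h.lip⟩

/-- The labels do not depend on the law. -/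
theorem tgs_free {G : Fam n J} {κ : Type} {k : G.Ω → κ} {v : κ} (hl : IsLaw (cond G.p k v))
    {B : G.Ω → Prop} {i : Fin n} {K a w P : ℕ} (h : (Pool.ONE.tgs i).T () K a w P J G B) :
    (Pool.ONE.tgs i).T () K a w P J (G.res k v hl) B := by
  obtain ⟨l, h1, h2, a₀, w₀, e, g, h3, h4, h5, h6, h7, h8⟩ := h
  exact ⟨l, h1, h2, a₀, w₀, e, g, h3, h4, h5, h6, h7, chn_free hl h8⟩

/-- **There is no part of a given proportion with a label.** -/
theorem upr_tgs_many (k : Fin n) (K₁ : ℝ) (K : ℕ) (a w P : ℕ → ℕ) :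
    UPr (fun J (F : Fam n J) A => ∀ B : F.Ω → Prop, Sub B A → Pe F.p A ≤ K₁ * Pe F.p B →
      ¬ (Pool.ONE.tgs k).T () K (a J) (w J) (P J) J F B) :=
  GPr.upr fun J => gpr_many (P := fun (F : Fam n J) A =>
    (Pool.ONE.tgs k).T () K (a J) (w J) (P J) J F A)
    (fun F A B hB h => (Pool.ONE.tgs k).her () K _ _ _ J F A B hB h)
    (fun _ _ _ _ hl _ h => tgs_free hl h)

end Pool.ZLC
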