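import Pool.Agent.H9.ZC.Zsh
import Pool.Agent.H71.GEN.Cell
import Pool.Agent.H71.GEN.Comp

/-!
# Closed functions of the zooms in closed linear coordinates

`ptc_zoom`: on a large part of the event the point of the zoom is a function of the point of the
family. `zfc_det`: the lines and the windows of the zoom are functions of the lines and the windows
of the family. `zfc_cls`: a closed function of the zoom is a closed function of the family.
-/

set_option autoImplicit false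

namespace Pool.ZLC

open Finset Real MvPolynomial
open Pool.Agent.H49.Ent Pool.Agent.H32.Dense Pool.STK Pool.KA Pool.KSAT Pool.K2S Pool.PB Pool.S6C
open Pool.GEN Pool.ZCL Pool.TOP

variable {m n J : ℕ} {κ : Type}

/-- The lines and the windows of the zoom are functions of the lines and the windows. -/
theorem zfc_det (F : Fam m J) {w J' : ℕ} (h : w + J' ≤ J) (C : Crd m κ) (g : F.Ω → κ)
    (e : Fin n → Fin m) {v : ℕ} (hv : v ≤ J') {ω ω' : F.Ω} (hl : F.l ω = F.l ω')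
    (hT : F.T1 (w + v) ω = F.T1 (w + v) ω') (hg : g ω = g ω') (hZ : F.Z ω = F.Z ω') :
    slam (zfc F w J' h C g e) v ω = slam (zfc F w J' h C g e) v ω' ∧
      F.blab w C g ω = F.blab w C g ω' ∧ F.T1 w ω = F.T1 w ω' := by
  have hwv : w + v ≤ J := by omega
  have a3 : F.T1 w ω = F.T1 w ω' := by
    rw [T1_div F hwv ω, T1_div F hwv ω', hT]
  have a5 := Box.blab_det F (C := C) hl a3 hg hZ
  have a6 : (F.box w C g).T1 v ω = (F.box w C g).T1 v ω' := by
    have c1 := Box.T1_box F hwv C g ω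
    have c2 := Box.T1_box F hwv C g ω'
    rw [hT, a3] at c1
    omega
  have a7 : (F.box w C g).u ω = (F.box w C g).u ω' := (Prod.ext_iff.mp a5.2).1
  have a8 : (F.box w C g).d ω = (F.box w C g).d ω' := (Prod.ext_iff.mp a5.2).2
  refine ⟨?_, a5.1, a3⟩
  refine Prod.ext (Prod.ext ?_ ?_) (Prod.ext a5.1 ?_)
  · funext i
    change (⌊(2 : ℝ) ^ J' * (F.box w C g).u ω (e i)⌋ : ℝ) / 2 ^ J' =
      (⌊(2 : ℝ) ^ J' * (F.box w C g).u ω' (e i)⌋ : ℝ) / 2 ^ J'
    rw [a7]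
  · funext i
    change (⌊(2 : ℝ) ^ J' * (F.box w C g).d ω (e i)⌋ : ℝ) / 2 ^ J' =
      (⌊(2 : ℝ) ^ J' * (F.box w C g).d ω' (e i)⌋ : ℝ) / 2 ^ J'
    rw [a8]
  · have e1 : ∀ ω, (slam (zfc F w J' h C g e) v ω).2.2 = (F.box w C g).T1 v ω := by
      intro ω
      change (F.T ω % 2 ^ (J - w)) / 2 ^ (J - w - J') / 2 ^ (J' - v) =
        (F.T ω % 2 ^ (J - w)) / 2 ^ (J - w - v)
      rw [Nat.div_div_eq_div_mul, ← pow_add]
      congr 2
      omega
    exact (e1 ω).trans (a6.trans (e1 ω').symm)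

/-- **The points of the zoom** are functions of the points of the family, on a large part of the
event. -/
theorem ptc_zoom (F : Fam m J) {w J' : ℕ} (h : w + J' = J) {C : Crd m κ} {c : ℕ}
    (hC : C.Bd 0 (c : ℝ)) (g : F.Ω → κ) (e : Fin n → Fin m) (A : F.Ω → Prop)
    (hg : ∀ ω ω', A ω → A ω' → ptr F J ω = ptr F J ω' → g ω = g ω') :
    ∃ B : F.Ω → Prop, Sub B A ∧ Pe F.p A ≤
      (6 * c + 3) ^ m * ((4 * c + 3) ^ m * (2 * c + 15) ^ n) * Pe F.p B ∧
      ∀ ω ω', B ω → B ω' → ptr F J ω = ptr F J ω' → F.blab w C g ω = F.blab w C g ω' ∧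
        ∀ k ≤ J', ptr (zfc F w J' h.le C g e) k ω = ptr (zfc F w J' h.le C g e) k ω' := by
  have hw : w ≤ J := by omega
  have pJ : (0 : ℝ) < 2 ^ J' := by positivity
  have pw : (0 : ℝ) < 2 ^ w := by positivity
  -- the positions and the velocities
  have dd : ∀ ω ω', A ω → A ω' → ptr F J ω = ptr F J ω' → F.T ω = F.T ω' ∧ g ω = g ω' ∧
      F.Z ω = F.Z ω' ∧ ∀ i, |C.L (g ω) (F.d ω) i - C.L (g ω) (F.d ω') i| ≤ 2 * c ∧
      |2 ^ w * C.L (g ω) (F.x ω) i - 2 ^ w * C.L (g ω) (F.x ω') i| ≤ c := by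
    intro ω ω' h1 h2 hpt
    have b1 := Prod.ext_iff.1 hpt
    have b3 := Prod.ext_iff.1 b1.2
    have b2 : F.X J ω = F.X J ω' := b1.1
    refine ⟨b3.1, hg ω ω' h1 h2 hpt, b3.2, fun i => ⟨?_, ?_⟩⟩
    · have c1 := bd_lip hC (k := g ω) (x := F.d ω) (y := F.d ω') (δ := 2) (by norm_num)
        (fun j => by
          have a1 := abs_le.1 (F.dir ω j)
          have a2 := abs_le.1 (F.dir ω' j)
          rw [abs_le]
          constructor <;> linarith) i
      linarith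
    · have c1 : ∀ j, |F.x ω j - F.x ω' j| ≤ 1 / 2 ^ w := by
        intro j
        have b6' := Plk.abs_sub_lt_of_floor (congrFun b2 j :
          ⌊(2 : ℝ) ^ J * F.x ω j⌋ = ⌊(2 : ℝ) ^ J * F.x ω' j⌋)
        rw [← mul_sub, abs_mul, abs_of_pos (by positivity)] at b6'
        rw [le_div_iff₀ pw]
        have c2 : (2 : ℝ) ^ w ≤ 2 ^ J := pow_le_pow_right₀ one_le_two hw
        have c3 := mul_le_mul_of_nonneg_left c2 (abs_nonneg (F.x ω j - F.x ω' j))
        linarith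
      have c2 := bd_lip hC (k := g ω) (by positivity) c1 i
      rw [← mul_sub, abs_mul, abs_of_pos pw]
      calc 2 ^ w * |C.L (g ω) (F.x ω) i - C.L (g ω) (F.x ω') i| ≤
            2 ^ w * (c * (1 / 2 ^ w)) := mul_le_mul_of_nonneg_left c2 pw.le
        _ = c := by field_simp
  obtain ⟨B₁, hB1, hP1, φ₁, hφ₁⟩ := Pool.S6K.exact_label F.isLaw (3 * c + 1) (ptr F J)
    (F.bcl w C g) A (by
    intro ω ω' h1 h2 hpt i
    obtain ⟨c1, c2, c3, c4⟩ := dd ω ω' h1 h2 hpt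
    have c5 := (Box.blab_near F hw c1 c2 (fun i => (c4 i).1) (fun i => (c4 i).2) i).2
    have c6 : |(((F.bcl w C g ω i - F.bcl w C g ω' i) : ℤ) : ℝ)| ≤ ((3 * c + 1 : ℕ) : ℝ) := by
      push_cast at c5 ⊢
      linarith
    exact_mod_cast c6)
  obtain ⟨B₂, hB2, hP2, φ₂, hφ₂⟩ := Pool.S6K.exact_label F.isLaw (2 * c + 1) (ptr F J)
    (F.bvl C g) B₁ (by
    intro ω ω' h1 h2 hpt i
    obtain ⟨c1, c2, c3, c4⟩ := dd ω ω' (hB1 ω h1) (hB1 ω' h2) hpt
    have c5 := (Box.blab_near F hw c1 c2 (fun i => (c4 i).1) (fun i => (c4 i).2) i).1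
    have c6 : |(((F.bvl C g ω i - F.bvl C g ω' i) : ℤ) : ℝ)| ≤ ((2 * c + 1 : ℕ) : ℝ) := by
      push_cast at c5 ⊢
      linarith
    exact_mod_cast c6)
  have hlb : ∀ ω ω', B₂ ω → B₂ ω' → ptr F J ω = ptr F J ω' → F.T ω = F.T ω' ∧
      F.blab w C g ω = F.blab w C g ω' := by
    intro ω ω' h1 h2 hpt
    obtain ⟨hT, hgg, hZ, -⟩ := dd ω ω' (hB1 ω (hB2 ω h1)) (hB1 ω' (hB2 ω' h2)) hpt
    refine ⟨hT, ?_⟩
    have d1 : F.T1 w ω = F.T1 w ω' := by
      unfold Fam.T1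
      rw [hT]
    have d2 : F.bcl w C g ω = F.bcl w C g ω' := by
      rw [hφ₁ ω (hB2 ω h1), hφ₁ ω' (hB2 ω' h2), hpt]
    have d3 : F.bvl C g ω = F.bvl C g ω' := by
      rw [hφ₂ ω h1, hφ₂ ω' h2, hpt]
    unfold Fam.blab
    rw [d1, hgg, d2, d3, hZ]
  obtain ⟨B₃, hB3, hP3, φ₃, hφ₃⟩ := Pool.S6K.exact_label F.isLaw (c + 7) (ptr F J)
    ((zfc F w J' h.le C g e).X J') B₂ (by
    intro ω ω' h1 h2 hpt i
    obtain ⟨hT, hl⟩ := hlb ω ω' h1 h2 hpt
    have b2 : F.X J ω = F.X J ω' := (Prod.ext_iff.1 hpt).1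
    have c5 := zcx_near h C g e hT hl hC b2 i
    have c6 : |2 ^ J' * (zfc F w J' h.le C g e).x ω i -
        2 ^ J' * (zfc F w J' h.le C g e).x ω' i| ≤ c + 6 := by
      rw [← mul_sub, abs_mul, abs_of_pos pJ]
      rw [le_div_iff₀ pJ] at c5
      linarith
    have c7 : |(((zfc F w J' h.le C g e).X J' ω i -
        (zfc F w J' h.le C g e).X J' ω' i : ℤ) : ℝ)| ≤ ((c + 7 : ℕ) : ℝ) :=
      (ENP.floor_dist c6).trans (le_of_eq (by push_cast; ring))
    exact_mod_cast c7)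
  refine ⟨B₃, (hB3.trans hB2).trans hB1, ?_, fun ω ω' h1 h2 hpt => ?_⟩
  · have e1 : (2 * ((3 * c + 1 : ℕ) : ℝ) + 1) = 6 * c + 3 := by push_cast; ring
    have e2 : (2 * ((2 * c + 1 : ℕ) : ℝ) + 1) = 4 * c + 3 := by push_cast; ring
    have e3 : (2 * ((c + 7 : ℕ) : ℝ) + 1) = 2 * c + 15 := by push_cast; ring
    rw [e1] at hP1
    rw [e2] at hP2
    rw [e3] at hP3
    calc Pe F.p A ≤ (6 * c + 3) ^ m * Pe F.p B₁ := hP1
      _ ≤ (6 * c + 3) ^ m * ((4 * c + 3) ^ m * Pe F.p B₂) :=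
          mul_le_mul_of_nonneg_left hP2 (by positivity)
      _ ≤ (6 * c + 3) ^ m * ((4 * c + 3) ^ m * ((2 * c + 15) ^ n * Pe F.p B₃)) :=
          mul_le_mul_of_nonneg_left (mul_le_mul_of_nonneg_left hP3 (by positivity)) (by positivity)
      _ = _ := by ring
  · obtain ⟨hT, hl⟩ := hlb ω ω' (hB3 ω h1) (hB3 ω' h2) hpt
    refine ⟨hl, fun k hk => ?_⟩
    obtain ⟨ψ, hψ⟩ := ptr_coarse (zfc F w J' h.le C g e) hk
    have h3 : ptr (zfc F w J' h.le C g e) J' ω = ptr (zfc F w J' h.le C g e) J' ω' := by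
      refine Prod.ext ?_ (Prod.ext ?_ hl)
      · have a1 : (zfc F w J' h.le C g e).X J' ω = (zfc F w J' h.le C g e).X J' ω' := by
          rw [hφ₃ ω h1, hφ₃ ω' h2, hpt]
        exact a1
      · change F.T ω % 2 ^ (J - w) / 2 ^ (J - w - J') = F.T ω' % 2 ^ (J - w) / 2 ^ (J - w - J')
        rw [hT]
    exact (hψ ω).trans ((congrArg ψ h3).trans (hψ ω').symm)

/-- **The data of the zoom are functions of the data of the family**: on a large part of the event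
the point of the family determines the point and the label of the zoom, and the line and the
window `w + v` of the family determine the line and the window `v` and the label of the zoom. -/
theorem zfc_fun (F : Fam m J) {w J' : ℕ} (h : w + J' = J) {C : Crd m κ} {c : ℕ}
    (hC : C.Bd 0 (c : ℝ)) (e : Fin n → Fin m) {A : F.Ω → Prop} {z : PtT F → κ} {z' : LnT F → κ}
    (hz : ∀ ω, A ω → z (ptr F J ω) = z' (slam F w ω)) :
    ∃ B : F.Ω → Prop, Sub B A ∧ Pe F.p A ≤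
      (6 * c + 3) ^ m * ((4 * c + 3) ^ m * (2 * c + 15) ^ n) * Pe F.p B ∧
      ∃ (pt : PtT F → Option (PtT (zfc F w J' h.le C (fun ω => z' (slam F w ω)) e)))
        (ln : ℕ → LnT F → Option (LnT (zfc F w J' h.le C (fun ω => z' (slam F w ω)) e)))
        (lp : PtT F → Option (((ℕ × κ) × ((Fin m → ℤ) × (Fin m → ℤ))) × F.ζ))
        (ll : LnT F → Option (((ℕ × κ) × ((Fin m → ℤ) × (Fin m → ℤ))) × F.ζ)),
        (∀ ω, B ω → pt (ptr F J ω) =
          some (ptr (zfc F w J' h.le C (fun ω => z' (slam F w ω)) e) J' ω)) ∧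
        (∀ v ≤ J', ∀ ω, B ω → ln v (slam F (w + v) ω) =
          some (slam (zfc F w J' h.le C (fun ω => z' (slam F w ω)) e) v ω)) ∧
        (∀ ω, B ω → lp (ptr F J ω) = some (F.blab w C (fun ω => z' (slam F w ω)) ω)) ∧
        ∀ ω, B ω → ll (slam F w ω) = some (F.blab w C (fun ω => z' (slam F w ω)) ω) := by
  classical
  obtain ⟨g, hg⟩ : ∃ g : F.Ω → κ, g = fun ω => z' (slam F w ω) := ⟨_, rfl⟩
  rw [← hg]
  obtain ⟨B, hBA, hPB, hdet⟩ := ptc_zoom F h hC g e A (by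
    intro ω ω' h1 h2 hpt
    rw [hg]
    simp only
    rw [← hz ω h1, ← hz ω' h2, hpt])
  have hslam : ∀ v ≤ J', ∀ ω ω', slam F (w + v) ω = slam F (w + v) ω' →
      slam (zfc F w J' h.le C g e) v ω = slam (zfc F w J' h.le C g e) v ω' ∧
      F.blab w C g ω = F.blab w C g ω' := by
    intro v hv ω ω' hs
    obtain ⟨a1, a2⟩ := Prod.ext_iff.1 hs
    obtain ⟨a3, a4⟩ := Prod.ext_iff.1 a2
    have b1 : F.l ω = F.l ω' := a1
    have b2 : F.Z ω = F.Z ω' := a3
    have b3 : F.T1 (w + v) ω = F.T1 (w + v) ω' := a4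
    have b5 : F.T1 w ω = F.T1 w ω' := by
      rw [T1_div F (w := w) (K := v) (by omega) ω, T1_div F (w := w) (K := v) (by omega) ω', b3]
    have b6 : slam F w ω = slam F w ω' := Prod.ext b1 (Prod.ext b2 b5)
    have b7 : g ω = g ω' := by
      rw [hg]
      simp only
      rw [b6]
    obtain ⟨d1, d2, -⟩ := zfc_det F h.le C g e hv b1 b3 b7 b2
    exact ⟨d1, d2⟩
  obtain ⟨pt, hpt⟩ := fac (f := ptr F J)
    (Y := fun ω => ptr (zfc F w J' h.le C g e) J' ω) (B := B)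
    (fun ω ω' h1 h2 hh => (hdet ω ω' h1 h2 hh).2 J' le_rfl)
  have hln : ∀ v, ∃ f : LnT F → Option (LnT (zfc F w J' h.le C g e)), v ≤ J' → ∀ ω, B ω →
      f (slam F (w + v) ω) = some (slam (zfc F w J' h.le C g e) v ω) := by
    intro v
    by_cases hv : v ≤ J'
    · obtain ⟨f, hf⟩ := fac (f := slam F (w + v))
        (Y := fun ω => slam (zfc F w J' h.le C g e) v ω) (B := B)
        (fun ω ω' h1 h2 hh => (hslam v hv ω ω' hh).1)
      exact ⟨f, fun _ => hf⟩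
    · exact ⟨fun _ => none, fun h1 => absurd h1 hv⟩
  choose ln hln using hln
  obtain ⟨lp, hlp⟩ := fac (f := ptr F J) (Y := fun ω => F.blab w C g ω) (B := B)
    (fun ω ω' h1 h2 hh => (hdet ω ω' h1 h2 hh).1)
  obtain ⟨ll, hll⟩ := fac (f := slam F w) (Y := fun ω => F.blab w C g ω) (B := B)
    (fun ω ω' h1 h2 hh => (hslam 0 (Nat.zero_le _) ω ω' (by rw [add_zero]; exact hh)).2)
  exact ⟨B, hBA, hPB, pt, ln, lp, ll, hpt, fun v hv => hln v hv, hlp, hll⟩

end Pool.ZLC
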