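import Pool.Agent.H9.ZC.Zgp

/-!
# The class of the sheared zooms

`zsh_clb`: a class `ClB` from the sheared zooms of the families of a class: closed shear
coefficients, and no bad property of a list on the large events of the zoom.
-/

set_option autoImplicit false

namespace Pool.ZLC

open Finset Real MvPolynomial
open Pool.Agent.H49.Ent Pool.Agent.H32.Dense Pool.STK Pool.KA Pool.KSAT Pool.K2S Pool.PB Pool.S6C
open Pool.GEN Pool.ZCL Pool.TOP

variable {m n J : ℕ}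

/-- The minimum of finitely many of the numbers. -/
theorem min_upto {ψ : ℕ → ℝ} (h : ∀ i, 0 < ψ i) (M : ℕ) :
    ∃ τ : ℝ, 0 < τ ∧ ∀ i ≤ M, τ ≤ ψ i := by
  induction M with
  | zero => exact ⟨ψ 0, h 0, fun i hi => by rw [Nat.le_zero.1 hi]⟩
  | succ M ih =>
    obtain ⟨τ, h1, h2⟩ := ih
    refine ⟨min τ (ψ (M + 1)), lt_min h1 (h _), fun i hi => ?_⟩
    rcases Nat.le_succ_iff.1 hi with h3 | h3
    · exact (min_le_left _ _).trans (h2 i h3)
    · rw [h3]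
      exact min_le_right _ _

/-- **The class of the zooms in closed linear coordinates**; the closed data may depend on the
number of the bad properties. -/
theorem zoom_clb2 {S : PCl m} {C₀ : ℝ} (hC₀ : 0 ≤ C₀) (hbs : TmC S C₀) (hne : S.Ne) {w₁ : ℝ}
    (hw0 : 0 < w₁) (hw11 : w₁ < 1) {ε : Fin n → Fin m} {kap : Fin m}
    (hk0 : ∀ k : Fin n, (k : ℕ) = 0 → ε k = kap) {B₀ : ℝ} (hB₀ : 0 ≤ B₀) {cL : ℝ}
    {Φ : ℕ → Stat n} (hΦ : ∀ i, UPr (Φ i)) {ψ : ℕ → ℝ} (hψ : ∀ i, 0 < ψ i)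
    (hD : ∀ M : ℕ, ∃ K₁ : ℝ, 0 < K₁ ∧ Bas S (fun J F A => ∃ B : F.Ω → Prop, Sub B A ∧
      Pe F.p A ≤ K₁ * Pe F.p B ∧ ∃ (κ : Type) (C : Crd m κ) (z : PtT F → κ) (z' : LnT F → κ),
        (∀ ω, B ω → z (ptr F J ω) = z' (slam F ⌊w₁ * J⌋₊ ω)) ∧
        (C.Bd 0 cL ∧ ∀ k x, C.L k x kap = x kap) ∧
        ∀ (hl : IsLaw (cond F.p B True)) (J' : ℕ) (hJ : ⌊w₁ * J⌋₊ + J' = J), ∀ i ≤ M,
          ∀ B' : F.Ω → Prop, Sub B' B → Real.exp (-(3 * ψ i * J')) * Pe F.p B ≤ Pe F.p B' →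
          ¬ Φ i J' (zfc (F.res B True hl) ⌊w₁ * J⌋₊ J' hJ.le C
            (fun ω => z' (slam F ⌊w₁ * J⌋₊ ω)) ε) B')) :
    ∃ S' : PCl n, ClB (NZR S kap B₀ w₁) S' ∧ ∀ i, Bas S' (fun J F A => ¬ Φ i J F A) := by
  classical
  choose ι hι R hcard hR hiff using hΦ
  obtain ⟨N, hN⟩ : ∃ N, N = NZR S kap B₀ w₁ := ⟨_, rfl⟩
  have hact : ∀ i : ℕ, ZBD S w₁ ε (CrdK kap cL) (fun J G B =>
      ∀ (q q' : ℚ) (k : Fin n), (k : ℕ) = 0 → Encodable.encode (q, q') ≤ i → 0 ≤ q → q ≤ q' →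
        q' ≤ 1 → ¬ ActF N q q' (1 / ((i : ℝ) + 1)) k J G B) := by
    intro i
    rw [hN]
    exact zbd_act hbs hw0 hw11 (fun k : Fin n => (k : ℕ) = 0) hk0 hB₀ (by positivity) cL i
  choose ψa hψa τa hτa Ja hza using hact
  have hall : ∀ i (J : ℕ) (a : ι i J ⊕ (Fin (i + 1) × Fin n)),
      GPr (actL N (ι := ι) (fun i J a => R i J a) i J a) := by
    rintro i J (a | ⟨c, k⟩)
    · exact hR i J a
    · exact gpr_actC N _ _ k
  have hcard' : ∀ (i : ℕ) (e : ℝ), 0 < e → ∃ J₀ : ℕ, ∀ J ≥ J₀,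
      (Fintype.card (ι i J ⊕ (Fin (i + 1) × Fin n)) : ℝ) ≤ Real.exp (e * J) := by
    intro i e he
    obtain ⟨J₁, hJ₁⟩ := hcard i (e / 2) (half_pos he)
    obtain ⟨J₂, hJ₂⟩ := exists_nat_ge
      (2 * (1 + (Fintype.card (Fin (i + 1) × Fin n) : ℝ)) / e)
    refine ⟨max J₁ J₂, fun J hJ => ?_⟩
    have h1 := hJ₁ J ((le_max_left _ _).trans hJ)
    have h2 : 2 * (1 + (Fintype.card (Fin (i + 1) × Fin n) : ℝ)) / e ≤ J :=
      hJ₂.trans (by exact_mod_cast (le_max_right _ _).trans hJ)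
    rw [div_le_iff₀ he] at h2
    have h3 := Real.add_one_le_exp (e / 2 * J)
    have h4 : Real.exp (e * J) = Real.exp (e / 2 * J) * Real.exp (e / 2 * J) := by
      rw [← Real.exp_add]
      congr 1
      ring
    rw [Fintype.card_sum]
    push_cast
    rw [h4]
    have h5 : (0 : ℝ) ≤ (Fintype.card (Fin (i + 1) × Fin n) : ℝ) := Nat.cast_nonneg _
    have h8 : (Fintype.card (ι i J) : ℝ) + (Fintype.card (Fin (i + 1) × Fin n) : ℝ) ≤
        Real.exp (e / 2 * J) + (Real.exp (e / 2 * J) - 1) := by linarith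
    have h10 : 0 ≤ (Real.exp (e / 2 * J) - 1) * (Real.exp (e / 2 * J) - 1) :=
      mul_self_nonneg _
    have h11 : (Real.exp (e / 2 * J) - 1) * (Real.exp (e / 2 * J) - 1) =
      Real.exp (e / 2 * J) * Real.exp (e / 2 * J) - 2 * Real.exp (e / 2 * J) + 1 := by ring
    linarith
  obtain ⟨S', hne', hmem, hS'⟩ := zoom_cls2 (ε := ε) hC₀ hbs hne hw0 hw11
    (ι := fun i J => ι i J ⊕ (Fin (i + 1) × Fin n))
    (R := actL N (ι := ι) (fun i J a => R i J a)) hcard' hall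
    (ψ := fun i => min (ψ i) (ψa i)) (fun i => lt_min (hψ i) (hψa i)) (by
      intro M
      obtain ⟨K₁, hK₁, τD, hτD, JD, hD⟩ := hD M
      obtain ⟨τm, hτm, hτm'⟩ := min_upto hτa M
      obtain ⟨J₅, hJ₅⟩ := exists_nat_ge (Real.log K₁ / (τm / 2))
      refine ⟨K₁, hK₁, min τD (τm / 2), lt_min hτD (half_pos hτm),
        max (max JD J₅) (∑ i ∈ range (M + 1), Ja i), fun J hJ F A hA => ?_⟩
      simp only [ge_iff_le, max_le_iff] at hJ
      obtain ⟨⟨hJD, hJ5⟩, hJa⟩ := hJ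
      obtain ⟨B, hBA, hPB, κ', C, z, z', hcl, hCr, hDt⟩ :=
        hD J hJD F A (S.mono (min_le_left _ _) hA)
      refine ⟨B, hBA, hPB, κ', C, z, z', hcl, fun hl J' hJ' i hi B' hB' => ?_⟩
      have hB0 : 0 < Pe F.p B := by
        have h1 := hl.sum_one
        by_contra hcon
        have h2 : Pe F.p B = 0 := le_antisymm (not_lt.1 hcon) (Pe_nonneg F.isLaw B)
        have h3 : Pe (cond F.p B True) (fun _ => True) = 1 := Pe_univ hl
        rw [Pe_cond, h2, div_zero] at h3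
        exact zero_ne_one h3
      have hB : S.St τm J F B := by
        have h1 := S.res (τ' := τm / 2) (by positivity) (S.mono (min_le_right τD (τm / 2)) hA)
          hBA (by
            have h2 : Real.log K₁ / (τm / 2) ≤ J := hJ₅.trans (by exact_mod_cast hJ5)
            rw [div_le_iff₀ (by positivity)] at h2
            have h3 : Real.exp (-(τm / 2 * J)) ≤ 1 / K₁ := by
              rw [one_div, ← Real.exp_log (inv_pos.2 hK₁), Real.log_inv]
              exact Real.exp_le_exp.2 (by linarith)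
            calc Real.exp (-(τm / 2 * J)) * Pe F.p A ≤ 1 / K₁ * Pe F.p A :=
                  mul_le_mul_of_nonneg_right h3 (Pe_nonneg F.isLaw A)
              _ ≤ 1 / K₁ * (K₁ * Pe F.p B) := mul_le_mul_of_nonneg_left hPB (by positivity)
              _ = Pe F.p B := by field_simp)
        rwa [add_halves] at h1
      have hJ'0 : (0 : ℝ) ≤ J' := Nat.cast_nonneg J'
      have e1 : Real.exp (-(3 * ψ i * J')) ≤ Real.exp (-(3 * min (ψ i) (ψa i) * J')) :=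
        Real.exp_le_exp.2 (neg_le_neg (mul_le_mul_of_nonneg_right
          (mul_le_mul_of_nonneg_left (min_le_left _ _) (by norm_num)) hJ'0))
      have e2 : Real.exp (-(3 * ψa i * J')) ≤ Real.exp (-(3 * min (ψ i) (ψa i) * J')) :=
        Real.exp_le_exp.2 (neg_le_neg (mul_le_mul_of_nonneg_right
          (mul_le_mul_of_nonneg_left (min_le_right _ _) (by norm_num)) hJ'0))
      rintro ⟨a | ⟨c, k⟩, ha⟩
      · -- the user's property
        have ha' : R i J' a (zfc (F.res B True hl) ⌊w₁ * J⌋₊ J' hJ'.le C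
            (fun ω => z' (slam F ⌊w₁ * J⌋₊ ω)) ε) B' := ha
        have h1 := (hR i J' a).inv _ _ ha'
        refine hDt hl J' hJ' i hi (fun ω => B' ω ∧ cond F.p B True ω ≠ 0) ?_ ?_
          ((hiff i J' _ _).2 ⟨a, h1⟩)
        · intro ω hω
          exact of_eq_true ((cond_pos_iff F.isLaw.nonneg B True ω).1
            (lt_of_le_of_ne (hl.nonneg ω) (Ne.symm hω.2))).2
        · have h2 : Pe (cond F.p B True) (fun ω => B' ω ∧ cond F.p B True ω ≠ 0) =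
              Pe (cond F.p B True) B' := Pe_supp _ _
          rw [Pe_cond] at h2
          have h3 : (fun ω => B ω ∧ B' ω ∧ cond F.p B True ω ≠ 0) =
              fun ω => B' ω ∧ cond F.p B True ω ≠ 0 := by
            funext ω
            refine propext ⟨fun h => h.2, fun h => ⟨?_, h⟩⟩
            exact of_eq_true ((cond_pos_iff F.isLaw.nonneg B True ω).1
              (lt_of_le_of_ne (hl.nonneg ω) (Ne.symm h.2))).2
          rw [h3, div_eq_iff hB0.ne'] at h2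
          rw [h2]
          exact mul_le_mul_of_nonneg_right (e1.trans hB') hB0.le
      · -- the inactivity
        obtain ⟨⟨h3, h4, h5⟩, h6⟩ := ha
        have hJi : Ja i ≤ J := (Finset.single_le_sum (f := Ja) (fun _ _ => Nat.zero_le _)
          (Finset.mem_range.2 (by omega))).trans hJa
        refine hza i J hJi F B (S.mono (hτm' i hi) hB) κ' C z z' hcl hCr hl J' hJ' B'
          (e2.trans hB') _ _ k h3 ?_ h5.1 h5.2.1 h5.2.2 h6
        have h7 := c.2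
        change Encodable.encode (dqc c) ≤ i
        omega)
  have hbas : ∀ i : ℕ, Bas S'.toP (fun J F A =>
      ¬ ∃ a, actL N (ι := ι) (fun i J a => R i J a) i J a F A) := by
    intro i
    obtain ⟨κ, hκ, hc⟩ := hS' i
    refine Bas.mono 0 hc fun J _ F A h1 => h1 A ?_
    have h2 : Real.exp (-(κ * J)) ≤ 1 := by
      rw [Real.exp_le_one_iff]
      have : 0 ≤ κ * (J : ℝ) := by positivity
      linarith
    calc _ ≤ 1 * Pe F.p A := mul_le_mul_of_nonneg_right h2 (Pe_nonneg F.isLaw A)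
      _ = Pe F.p A := one_mul _
  refine ⟨S'.toP, ⟨hne', ?_, ?_⟩, fun i => ?_⟩
  · intro τ J F A hA
    have h1 : S'.St τ F A := hA
    have h2 := hmem τ J F h1.1
    exact ⟨S'.tr h1.1, S'.tm h1.1, S'.rb h1.1, h1.2, h2.1, h2.2⟩
  · intro k hk q q' h0 h1 h2 h hh
    obtain ⟨i, hi⟩ := exists_inv hh
    obtain ⟨c, hc⟩ : ∃ c, c = Encodable.encode (q, q') := ⟨_, rfl⟩
    have hii : 1 / (((max i c : ℕ) : ℝ) + 1) ≤ h := by
      refine le_trans ?_ hi
      refine one_div_le_one_div_of_le (by positivity) ?_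
      have : (i : ℝ) ≤ ((max i c : ℕ) : ℝ) := by exact_mod_cast le_max_left _ _
      linarith
    refine Bas.mono 0 (hbas (max i c)) fun J _ F A h3 => ?_
    by_contra hcon
    push Not at hcon
    refine h3 ⟨Sum.inr (⟨c, by
      have := le_max_right i c
      omega⟩, k), ?_⟩
    change ActC N (1 / (((max i c : ℕ) : ℝ) + 1)) c k J F A
    unfold ActC
    rw [hc, dqc_encode]
    refine ⟨⟨hk, rfl, h0, h1, h2⟩, ?_⟩
    rw [← hc]
    unfold ActF
    have hcon' := hcon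
    rw [← hN] at hcon'
    refine lt_of_lt_of_le hcon' ?_
    have hl2 : 0 ≤ Real.log 2 := (Real.log_pos one_lt_two).le
    exact mul_le_mul_of_nonneg_right (mul_le_mul_of_nonneg_right (by linarith) hl2)
      (Nat.cast_nonneg J)
  · refine Bas.mono 0 (hbas i) fun J _ F A h1 h2 => ?_
    obtain ⟨a, ha⟩ := (hiff i J F A).1 h2
    exact h1 ⟨Sum.inl a, ha⟩

/-- **The class of the sheared zooms.** -/
theorem zsh_clb {S : PCl m} {C₀ : ℝ} (hC₀ : 0 ≤ C₀) (hbs : TmC S C₀) (hne : S.Ne) {w₁ : ℝ}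
    (hw0 : 0 < w₁) (hw11 : w₁ < 1) {N : ℚ → ℚ → ℝ} {al : ℝ} {g₀ : ℝ → ℝ} (hal : 0 ≤ al)
    (hN : ActM N al g₀) {ε : Fin n → Fin m} {kap u : Fin m} {Lt : Finset (Fin m)} (hu : u ∉ Lt)
    (hkap : kap ∉ Lt) (hact : ActB N S kap) (hk0 : ∀ k : Fin n, (k : ℕ) = 0 → ε k = kap)
    (M₀ : ℕ → Fin m → ℕ) {Φ : ℕ → Stat n} (hΦ : ∀ i, UPr (Φ i)) {ψ : ℕ → ℝ} (hψ : ∀ i, 0 < ψ i)
    (hD : ∀ M : ℕ, ∃ K₁ : ℝ, 0 < K₁ ∧ Bas S (fun J F A => ∃ B : F.Ω → Prop, Sub B A ∧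
      Pe F.p A ≤ K₁ * Pe F.p B ∧ ∃ (V : Type) (z : PtT F → V) (z' : LnT F → V)
        (cb : V → Fin m → ℝ), (∀ ω, B ω → z (ptr F J ω) = z' (slam F ⌊w₁ * J⌋₊ ω)) ∧
        ∀ (hl : IsLaw (cond F.p B True)) (J' : ℕ) (hJ : ⌊w₁ * J⌋₊ + J' = J), ∀ i ≤ M,
          ∀ B' : F.Ω → Prop, Sub B' B → Real.exp (-(3 * ψ i * J')) * Pe F.p B ≤ Pe F.p B' →
          ¬ Φ i J' (zsh (F.res B True hl) ⌊w₁ * J⌋₊ J' hJ.le z' cb u Lt hu (M₀ J) ε) B')) :
    ∃ S' : PCl n, ClB (NZR S kap (al + 1) w₁) S' ∧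
      ActM (NZR S kap (al + 1) w₁) al (fun x => min (g₀ (x / 2)) 1) ∧
      ∀ i, Bas S' (fun J F A => ¬ Φ i J F A) := by
  obtain ⟨S', h1, h2⟩ := zoom_clb2 (ε := ε) hC₀ hbs hne hw0 hw11 hk0
    (by linarith : 0 ≤ al + 1) (cL := 2) hΦ hψ (by
      intro M
      obtain ⟨K₁, hK₁, hB⟩ := hD M
      refine ⟨K₁, hK₁, Bas.mono 0 hB ?_⟩
      rintro J - F A ⟨B, hBA, hPB, V, z, z', cb, hcl, hDt⟩
      exact ⟨B, hBA, hPB, V, shC cb u Lt hu (M₀ J), z, z', hcl,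
        ⟨shC_bd _ _ _ _ _, fun k x => shC_not hkap k x⟩, hDt⟩)
  exact ⟨S', h1, ActM.real (fun τ J F A hτ hA => (hbs τ J F A hτ hA).1) hal hN hact hw0.le hw11,
    h2⟩

end Pool.ZLC
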