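import Pool.Agent.H9.ZC.Zact
import Pool.Agent.H45.EXA.ActZ

/-!
# The zooms of a class in closed linear coordinates are active
-/

set_option autoImplicit false

namespace Pool.ZLC

open Finset Real MvPolynomial
open Pool.Agent.H49.Ent Pool.Agent.H32.Dense Pool.STK Pool.KA Pool.KSAT Pool.K2S Pool.PB Pool.S6C
open Pool.GEN Pool.ZCL

variable {m n J : ℕ} {κ : Type}

/-- The coordinate `kap` is kept, and the coordinates are Lipschitz functions with the constant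
`c`. -/
def CrdK (kap : Fin m) (c : ℝ) : DtP m := fun _ _ _ _ C _ =>
  C.Bd 0 c ∧ ∀ k x, C.L k x kap = x kap

/-- The digits of the zoom and of the family. -/
theorem dig_up {F : Fam m J} {μ : F.Ω → ℝ} (hql : IsLaw μ) {a₀ a b₀ b : ℕ} (b1 : b₀ ≤ b)
    (a2 : a ≤ a₀ + 1) (kap : Fin m) :
    CH μ (fun ω => F.D b₀ ω kap) (fun ω => (F.D a₀ ω, (F.X J ω, F.W ω))) ≤
      CH μ (fun ω => F.D b ω kap) (fun ω => (F.D a ω, (F.X J ω, F.W ω))) +
        m * Real.log 7 := by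
  have h0 := hql.nonneg
  have c1 : CH μ (fun ω => F.D b₀ ω kap) (fun ω => (F.D a₀ ω, (F.X J ω, F.W ω))) ≤
      CH μ (fun ω => F.D b ω kap) (fun ω => (F.D a₀ ω, (F.X J ω, F.W ω))) := by
    refine CH_mono_left h0 ?_
    intro ω ω' _ _ hh'
    have hh : F.D b ω kap = F.D b ω' kap := (Prod.ext_iff.mp hh').1
    obtain ⟨l, hl'⟩ : ∃ l, b = b₀ + l := ⟨b - b₀, by omega⟩
    have e1 : ∀ ω, F.D b₀ ω kap = ⌊((2 : ℝ) ^ b * F.d ω kap) / ((2 ^ l : ℕ) : ℝ)⌋ := by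
      intro ω
      change ⌊(2 : ℝ) ^ b₀ * F.d ω kap⌋ = _
      congr 1
      rw [hl', pow_add]
      push_cast
      field_simp
    simp only
    rw [e1, e1, Int.floor_div_natCast, Int.floor_div_natCast]
    have e3 : ⌊(2 : ℝ) ^ b * F.d ω kap⌋ = ⌊(2 : ℝ) ^ b * F.d ω' kap⌋ := hh
    rw [e3]
  have c2 := CH_le_add h0 (fun ω => F.D b ω kap) (F.D a) (fun ω => (F.D a₀ ω, (F.X J ω, F.W ω)))
  have c3 : CH μ (F.D a) (fun ω => (F.D a₀ ω, (F.X J ω, F.W ω))) ≤ m * Real.log 7 := by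
    have key := ENP.CH_fl hql a F.d (fun ω => (F.D a₀ ω, (F.X J ω, F.W ω))) 2 (by
      intro ω ω' _ _ hh i
      have d1 := Prod.ext_iff.mp hh
      have d2 := Plk.abs_sub_lt_of_floor (congrFun d1.1 i :
        ⌊(2 : ℝ) ^ a₀ * F.d ω i⌋ = ⌊(2 : ℝ) ^ a₀ * F.d ω' i⌋)
      simp only at d2
      rw [← mul_sub, abs_mul, abs_of_pos (by positivity : (0 : ℝ) < 2 ^ a₀)] at d2
      have pa : (0 : ℝ) < 2 ^ a := by positivity
      rw [le_div_iff₀ pa]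
      have d3 : (2 : ℝ) ^ a ≤ 2 ^ a₀ * 2 := by
        rw [← pow_succ]
        exact pow_le_pow_right₀ one_le_two a2
      have d4 : |F.d ω i - F.d ω' i| * 2 ^ a ≤ |F.d ω i - F.d ω' i| * (2 ^ a₀ * 2) :=
        mul_le_mul_of_nonneg_left d3 (abs_nonneg _)
      have d5 : |F.d ω i - F.d ω' i| * (2 ^ a₀ * 2) =
        2 * (2 ^ a₀ * |F.d ω i - F.d ω' i|) := by ring
      rw [d5] at d4
      linarith only [d4, d2])
    have e2 : (2 : ℝ) * 2 + 3 = 7 := by norm_num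
    rw [e2] at key
    exact key
  have c4 : CH μ (fun ω => F.D b ω kap) (fun ω => (F.D a ω, (F.D a₀ ω, (F.X J ω, F.W ω)))) ≤
      CH μ (fun ω => F.D b ω kap) (fun ω => (F.D a ω, (F.X J ω, F.W ω))) := by
    refine CH_mono_cond h0 ?_
    intro ω ω' _ _ hh
    have d1 := Prod.ext_iff.mp hh
    have d2 := Prod.ext_iff.mp d1.2
    exact Prod.ext d1.1 d2.2
  linarith only [c1, c2, c3, c4]

/-- The floors of the zoom. -/
theorem fl_up {w : ℝ} {J J' : ℕ} (g1 : (1 - w) * (J : ℝ) ≤ J')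
    (g2 : (J' : ℝ) ≤ (1 - w) * J + 1) (hw : 0 ≤ 1 - w) {r : ℝ} (hr0 : 0 ≤ r) (hr1 : r ≤ 1) :
    ⌊(1 - w) * r * J⌋₊ ≤ ⌊r * J'⌋₊ ∧ ⌊r * J'⌋₊ ≤ ⌊(1 - w) * r * J⌋₊ + 1 ∧
      ⌊r * J'⌋₊ ≤ J' := by
  have hJ : (0 : ℝ) ≤ J := Nat.cast_nonneg J
  have hJ' : (0 : ℝ) ≤ J' := Nat.cast_nonneg J'
  refine ⟨Nat.floor_le_floor ?_, ?_, ?_⟩
  · have h1 := mul_le_mul_of_nonneg_left g1 hr0
    linarith only [h1]
  · have e2 : ⌊(1 - w) * r * J⌋₊ + 1 = ⌊(1 - w) * r * J + 1⌋₊ := by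
      rw [Nat.floor_add_one]
      positivity
    rw [e2]
    refine Nat.floor_le_floor ?_
    have h1 := mul_le_mul_of_nonneg_left g2 hr0
    linarith only [h1, hr1]
  · refine Nat.floor_le_of_le ?_
    have h1 := mul_le_mul_of_nonneg_right hr1 hJ'
    linarith only [h1]

/-- The numbers of the zoom. -/
theorem num_up {w c h : ℝ} {J J' : ℕ} (h1w : 0 < 1 - w) (hh : 0 < h)
    (g1 : (1 - w) * (J : ℝ) ≤ J') (g2 : (J' : ℝ) ≤ (1 - w) * J + 1) :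
    (c / (1 - w) - h) * Real.log 2 * J' ≤
      c * Real.log 2 * J + |c| / (1 - w) * Real.log 2 - h * (1 - w) * Real.log 2 * J := by
  have hl2 : 0 < Real.log 2 := Real.log_pos (by norm_num)
  have c6 : c / (1 - w) * (J' : ℝ) ≤ c * J + |c| / (1 - w) := by
    have d1 : c / (1 - w) * (J' : ℝ) = c * J + c / (1 - w) * (J' - (1 - w) * J) := by
      field_simp
      ring
    rw [d1]
    have d2 : c / (1 - w) * ((J' : ℝ) - (1 - w) * J) ≤ |c| / (1 - w) * 1 := by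
      refine mul_le_mul ?_ (by linarith only [g2]) (by linarith only [g1]) (by positivity)
      exact div_le_div_of_nonneg_right (le_abs_self _) h1w.le
    linarith only [d2]
  have c7 : h * (1 - w) * (J : ℝ) ≤ h * J' := by
    have := mul_le_mul_of_nonneg_left g1 hh.le
    linarith only [this]
  have e1 : (c / (1 - w) - h) * Real.log 2 * J' =
      (c / (1 - w) * (J' : ℝ) - h * J') * Real.log 2 := by ring
  rw [e1]
  have e3 : (c / (1 - w) * (J' : ℝ) - h * J') * Real.log 2 ≤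
      ((c * J + |c| / (1 - w)) - h * (1 - w) * J) * Real.log 2 :=
    mul_le_mul_of_nonneg_right (by linarith only [c6, c7]) hl2.le
  refine e3.trans (le_of_eq ?_)
  ring

/-- **The zooms at a real window are active.** -/
theorem z_actC {S : PCl m}
    (hpos : ∀ (τ : ℝ) (J : ℕ) (F : Fam m J) (A : F.Ω → Prop), 0 < τ → S.St τ J F A →
      0 < Pe F.p A)
    {kap : Fin m} {w q q' c : ℝ} (hw0 : 0 < w) (hw1 : w < 1) (hq0 : 0 ≤ q) (hqq : q ≤ q')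
    (hq1 : q' ≤ 1) (hV : VA S kap ((1 - w) * q) ((1 - w) * q') c) {h : ℝ} (hh : 0 < h)
    {ε : Fin n → Fin m} {i : Fin n} (hei : ε i = kap) (cL : ℝ) :
    ZBD S w ε (CrdK kap cL) (fun J' G B =>
    ¬ CH (Pool.Agent.H49.Ent.cond G.p B True) (fun ω => G.D ⌊q' * J'⌋₊ ω i)
      (fun ω => (G.D ⌊q * J'⌋₊ ω, (G.X J' ω, G.W ω))) <
      (c / (1 - w) - h) * Real.log 2 * J') := by
  have h1w : (0 : ℝ) < 1 - w := by linarith
  obtain ⟨p, hp⟩ : ∃ p, p = (1 - w) * q := ⟨_, rfl⟩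
  obtain ⟨p', hp'⟩ : ∃ p', p' = (1 - w) * q' := ⟨_, rfl⟩
  have hp0 : 0 ≤ p := by rw [hp]; positivity
  have hpp : p ≤ p' := by
    rw [hp, hp']
    exact mul_le_mul_of_nonneg_left hqq h1w.le
  have hq'0 : 0 ≤ q' := hq0.trans hqq
  have hp1 : p' ≤ 1 := by
    rw [hp']
    nlinarith
  obtain ⟨h', hh'⟩ : ∃ h', h' = h * (1 - w) / 2 := ⟨_, rfl⟩
  have hh0 : 0 < h' := by
    rw [hh']
    positivity
  rw [← hp, ← hp'] at hV
  obtain ⟨τ₁, hτ₁, J₁, hb⟩ := hV h' hh0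
  have hl2 : 0 < Real.log 2 := Real.log_pos (by norm_num)
  obtain ⟨K, hK⟩ : ∃ K : ℝ, K = m * Real.log (2 * (2 * cL + cL + 1) + 3) +
    m * Real.log (2 * (2 * cL + 1) + 3) + n * Real.log (2 * (cL + 6) + 3) +
    n * Real.log (2 * (cL + 2) + 3) := ⟨_, rfl⟩
  obtain ⟨C, hC⟩ : ∃ C : ℝ, C = m * Real.log 7 + K + |c| / (1 - w) * Real.log 2 := ⟨_, rfl⟩
  obtain ⟨J₂, hJ₂⟩ := lin C (mul_pos hh0 hl2)
  refine ⟨τ₁ / 12, by linarith, τ₁ / 2, by linarith, max J₁ J₂, ?_⟩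
  intro J hJ₀ F A hS κ Cr z z' hcls hdt hl J' hJ B hB hact
  have hJ1 : J₁ ≤ J := (le_max_left _ _).trans hJ₀
  have hJ2 := hJ₂ J ((le_max_right _ _).trans hJ₀)
  have hA : 0 < Pe F.p A := hpos _ J F A (by linarith) hS
  have hJr : (0 : ℝ) ≤ J := Nat.cast_nonneg J
  have hJ'r : (0 : ℝ) ≤ J' := Nat.cast_nonneg J'
  -- the scale
  have hJs : ((⌊w * J⌋₊ : ℕ) : ℝ) + J' = J := by exact_mod_cast hJ
  have f1 : ((⌊w * J⌋₊ : ℕ) : ℝ) ≤ w * J := Nat.floor_le (by positivity)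
  have f2 := Nat.lt_floor_add_one (w * J)
  have g1 : (1 - w) * (J : ℝ) ≤ J' := by linarith
  have g2 : (J' : ℝ) ≤ (1 - w) * J + 1 := by linarith
  obtain ⟨a1, a2, a3⟩ := fl_up g1 g2 h1w.le hq0 (hqq.trans hq1)
  obtain ⟨b1, b2, b3⟩ := fl_up g1 g2 h1w.le hq'0 hq1
  rw [← hp] at a1 a2
  rw [← hp'] at b1 b2
  obtain ⟨a, ha⟩ : ∃ a, a = ⌊q * J'⌋₊ := ⟨_, rfl⟩
  obtain ⟨b, hb'⟩ : ∃ b, b = ⌊q' * J'⌋₊ := ⟨_, rfl⟩
  obtain ⟨a₀, ha₀⟩ : ∃ a₀, a₀ = ⌊p * J⌋₊ := ⟨_, rfl⟩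
  obtain ⟨b₀, hb₀⟩ : ∃ b₀, b₀ = ⌊p' * J⌋₊ := ⟨_, rfl⟩
  rw [← ha, ← ha₀] at a1 a2
  rw [← ha] at a3
  rw [← hb', ← hb₀] at b1 b2
  rw [← hb'] at b3
  -- the event
  have hev := evt hA (by omega : J' ≤ J) (by linarith : 0 ≤ τ₁ / 12) hB
  have hPB0 : 0 < Pe F.p (fun ω => A ω ∧ B ω) :=
    lt_of_lt_of_le (mul_pos (Real.exp_pos _) hA) hev
  have hSB := S.res (F := F) (A := A) (B := fun ω => A ω ∧ B ω) (by linarith : 0 ≤ 3 * (τ₁ / 12))
    hS (fun ω hω => hω.1) hev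
  have hlow := hb J hJ1 F _ (S.mono (by linarith) hSB)
  simp only at hlow
  rw [← ha₀, ← hb₀] at hlow
  rw [← ha, ← hb'] at hact
  have ecnd : Pool.Agent.H49.Ent.cond (zfc (F.res A True hl) ⌊w * J⌋₊ J' hJ.le Cr
      (fun ω => z' (slam F ⌊w * J⌋₊ ω)) ε).p B True =
      Pool.Agent.H49.Ent.cond F.p (fun ω => A ω ∧ B ω) True := by
    change Pool.Agent.H49.Ent.cond (Pool.Agent.H49.Ent.cond F.p A True) B True = _
    rw [Pool.ZCL.cond_and F.p hA.ne']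
  rw [ecnd] at hact
  obtain ⟨μ, hμ⟩ : ∃ μ, μ = Pool.Agent.H49.Ent.cond F.p (fun ω => A ω ∧ B ω) True := ⟨_, rfl⟩
  have hql : IsLaw μ := by rw [hμ]; exact isLaw_cond F.isLaw hPB0
  have hsupp : ∀ ω, 0 < μ ω → A ω := by
    intro ω hω
    rw [hμ] at hω
    exact (cond_pos hω).1
  have h0 := hql.nonneg
  rw [← hμ] at hlow hact
  have hz := zfc_act (F := F.res A True hl) (q := μ) hJ Cr (fun ω => z' (slam F ⌊w * J⌋₊ ω)) ε hql
    (by
      intro ω ω' hω hω' hh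
      have h1 := hcls ω (hsupp ω hω)
      have h2 := hcls ω' (hsupp ω' hω')
      have h3 : ptr F J ω = ptr F J ω' := hh
      simp only
      rw [← h1, ← h2, h3]) hdt.1 hdt.2 a3 b3 hei
  rw [← hK] at hz
  -- the digits
  have c1 := dig_up (F := F) hql b1 a2 kap
  have c5 : CH μ (fun ω => F.D b ω kap) (fun ω => (F.D a ω, (F.X J ω, F.W ω))) <
      (c / (1 - w) - h) * Real.log 2 * J' + K := by
    refine lt_of_le_of_lt hz ?_
    refine add_lt_add_of_lt_of_le ?_ le_rfl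
    exact hact
  -- the numbers
  have c8 := num_up (c := c) h1w hh g1 g2
  rw [hC] at hJ2
  have c9 : h * (1 - w) * Real.log 2 * (J : ℝ) = 2 * (h' * Real.log 2 * J) := by
    rw [hh']
    ring
  have c10 : (c - h') * Real.log 2 * (J : ℝ) = c * Real.log 2 * J -
    h' * Real.log 2 * J := by ring
  rw [c10] at hlow
  rw [c9] at c8
  linarith only [hlow, c8, c1, c5, hJ2]

/-- **The velocities of the zooms are active**, real windows. -/
theorem zbd_act {S : PCl m} {C₀ : ℝ} (hbs : TmC S C₀) {w₁ : ℝ} (hw0 : 0 < w₁) (hw11 : w₁ < 1)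
    {ε : Fin n → Fin m} {kap : Fin m} (P : Fin n → Prop) (hk0 : ∀ k : Fin n, P k → ε k = kap)
    {B₀ : ℝ} (hB₀ : 0 ≤ B₀) {h : ℝ} (hh : 0 < h) (cL : ℝ) (i : ℕ) :
    ZBD S w₁ ε (CrdK kap cL) (fun J G B =>
      ∀ (q q' : ℚ) (k : Fin n), P k → Encodable.encode (q, q') ≤ i → 0 ≤ q → q ≤ q' →
        q' ≤ 1 → ¬ ActF (NZR S kap B₀ w₁) q q' h k J G B) := by
  classical
  have hpos : PosC S := fun τ J F A hτ hA => (hbs τ J F A hτ hA).1
  have hone : ∀ (c : ℕ) (k : Fin n), ZBD S w₁ ε (CrdK kap cL) (fun J G B =>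
      ∀ (q q' : ℚ), P k → Encodable.encode (q, q') = c → 0 ≤ q → q ≤ q' →
        q' ≤ 1 → ¬ ActF (NZR S kap B₀ w₁) q q' h k J G B) := by
    intro c k
    by_cases hc : ∃ (q q' : ℚ), P k ∧ Encodable.encode (q, q') = c ∧ 0 ≤ q ∧
        q ≤ q' ∧ q' ≤ 1
    · obtain ⟨q, q', hk, hqc, h0, h1, h2⟩ := hc
      obtain ⟨ψ, hψ, τ₀, hτ₀, J₀, hza⟩ := z_actC (n := n)
        (fun τ J F A hτ hS => (hbs τ J F A hτ hS).1)
        (kap := kap) hw0 hw11 (q := (q : ℝ)) (q' := (q' : ℝ)) (by exact_mod_cast h0)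
        (by exact_mod_cast h1) (by exact_mod_cast h2) (NR.valid hpos hB₀ _ _) hh (hk0 k hk) cL
      refine ⟨ψ, hψ, τ₀, hτ₀, J₀, ?_⟩
      intro J hJ₀ F A hS κ C z z' hcls hdt hl J' hJ' B hB p p' hk' hpc _ _ _
      have e1 : (p, p') = (q, q') := Encodable.encode_injective (hpc.trans hqc.symm)
      obtain ⟨rfl, rfl⟩ := Prod.ext_iff.1 e1
      exact hza J hJ₀ F A hS κ C z z' hcls hdt hl J' hJ' B hB
    · refine ⟨1, one_pos, 1, one_pos, 0, ?_⟩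
      intro J _ F A _ κ C z z' _ _ hl J' hJ' B _ q q' hk hqc h0 h1 h2
      exact absurd ⟨q, q', hk, hqc, h0, h1, h2⟩ hc
  have hall : ∀ c : ℕ, ZBD S w₁ ε (CrdK kap cL) (fun J G B =>
      ∀ k : Fin n, ∀ (q q' : ℚ), P k → Encodable.encode (q, q') = c → 0 ≤ q → q ≤ q' →
        q' ≤ 1 → ¬ ActF (NZR S kap B₀ w₁) q q' h k J G B) := by
    intro c
    rcases Nat.eq_zero_or_pos n with rfl | hn
    · exact ⟨1, one_pos, 1, one_pos, 0, fun J _ F A _ κ C z z' _ _ hl J' hJ' B _ k => k.elim0⟩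
    · have h1 := ZBD.le (S := S) (w₁ := w₁) (ε := ε) (Dt := CrdK kap cL) n
        (Φ := fun a J G B => ∀ ha : a < n, ∀ (q q' : ℚ), P ⟨a, ha⟩ →
          Encodable.encode (q, q') = c → 0 ≤ q → q ≤ q' →
          q' ≤ 1 → ¬ ActF (NZR S kap B₀ w₁) q q' h ⟨a, ha⟩ J G B) (fun a => by
            by_cases ha : a < n
            · exact (hone c ⟨a, ha⟩).mono fun J G B h2 _ => h2
            · exact ⟨1, one_pos, 1, one_pos, 0,
                fun J _ F A _ κ C z z' _ _ hl J' hJ' B _ ha' => absurd ha' ha⟩)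
      exact h1.mono fun J G B h2 k => h2 k k.2.le k.2
  refine (ZBD.le i hall).mono fun J G B h1 q q' k hk hqc => ?_
  exact h1 _ hqc k q q' hk rfl

end Pool.ZLC
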