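import Pool.Agent.H9.ZC.Zca
import Pool.Agent.H27.TOP.Stm

/-!
# The class of the zooms in closed linear coordinates

`GPr R`: the property `R` of large events can be transferred from the sections of the side
information. `zoom_clb`: a class `ClB` of the zooms in closed linear coordinates which keep the
active coordinate, with good families and without the bad properties of a list.
-/

set_option autoImplicit false

namespace Pool.ZLC

open Finset Real MvPolynomial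
open Pool.Agent.H49.Ent Pool.Agent.H32.Dense Pool.STK Pool.KA Pool.KSAT Pool.K2S Pool.PB Pool.S6C
open Pool.GEN Pool.ZCL Pool.TOP

variable {m n J : ℕ}

/-- **The property can be transferred** from the sections of the side information. -/
structure GPr (R : ∀ F : Fam n J, (F.Ω → Prop) → Prop) : Prop where
  inv : Inv0 R
  glu : GluP R
  sub : ∀ (G : Fam n J) (E : G.Ω → Prop) (h : IsLaw (cond G.p E True)) (B : G.Ω → Prop),
    R (G.res E True h) B → R G (fun ω => E ω ∧ B ω)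

/-- Stable labels. -/
theorem gpr_lbR (R : ℝ) (I : Finset (Fin n)) (k : Fin n) (K w P : ℕ) :
    GPr (fun F : Fam n J => LbR R F I k K w P) :=
  ⟨inv0_of_hered fun F => LbR.hered R F _ _ _ _ _, (LbR.glu R _ _ _ _ _).pos, fun G E h B hR => by
    obtain ⟨V, z, z', g, hg⟩ := hR
    exact ⟨V, z, z', g, hg.deg, hg.dep, fun ω hω => hg.cls ω hω.2, fun ω hω => hg.pos ω hω.2⟩⟩

/-- Labels. -/
theorem gpr_lb (I : Finset (Fin n)) (k : Fin n) (K e r w ρ P : ℕ) :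
    GPr (fun F : Fam n J => Lb F I k K e r w ρ P) :=
  ⟨inv0_of_hered fun F => Lb.hered F _ _ _ _ _ _ _ _, (Lb.glu _ _ _ _ _ _ _ _).pos,
    fun G E h B hR => by
      obtain ⟨V, z, z', g, hg⟩ := hR
      exact ⟨V, z, z', g, hg.deg, hg.dep, fun ω hω => hg.cls ω hω.2, fun ω hω => hg.pos ω hω.2,
        fun ω hω => hg.vel ω hω.2, fun ω hω => hg.lip ω hω.2⟩⟩

theorem gpr_const {Q : Prop} {R : ∀ F : Fam n J, (F.Ω → Prop) → Prop} (h : GPr R) :
    GPr (fun F A => Q ∧ R F A) :=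
  ⟨inv0_const h.inv, glu_const h.glu, fun G E hE B hR => ⟨hR.1, h.sub G E hE B hR.2⟩⟩

theorem gpr_and {R R' : ∀ F : Fam n J, (F.Ω → Prop) → Prop} (h : GPr R) (h' : GPr R') :
    GPr (fun F A => R F A ∧ R' F A) :=
  ⟨fun F A hR => ⟨h.inv F A hR.1, h'.inv F A hR.2⟩, h.glu.and h'.glu,
    fun G E hE B hR => ⟨h.sub G E hE B hR.1, h'.sub G E hE B hR.2⟩⟩

/-- **The absence of a hereditary property** which does not depend on the probabilities. -/
theorem gpr_not {P : ∀ F : Fam n J, (F.Ω → Prop) → Prop} (her : ∀ F, Hered (P F))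
    (hp : ∀ (G : Fam n J) (κ : Type) (c : G.Ω → κ) (v : κ) (hl : IsLaw (cond G.p c v))
      (B : G.Ω → Prop), P G B → P (G.res c v hl) B) :
    GPr (fun F A => ¬ P F (fun ω => A ω ∧ F.p ω ≠ 0)) := by
  refine ⟨fun F A hR h => hR ?_, fun G κ c B hS hB hR h => ?_, fun G E hE B hR h => hR ?_⟩
  · exact her F _ _ (fun ω hω => ⟨hω, hω.2⟩) h
  · obtain ⟨ω, hω, hBω⟩ := exists_pos hB
    have hl := isLaw_sec G.isLaw c hω
    refine hR ω hω hBω hl (her _ _ _ ?_ (hp G κ c (c ω) hl _ h))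
    intro ω' hω'
    have h1 : (G.res c (c ω) hl).p ω' ≠ 0 := hω'.2
    have h2 : 0 < cond G.p c (c ω) ω' := lt_of_le_of_ne (hl.nonneg ω') (Ne.symm h1)
    have h3 := (cond_pos_iff G.isLaw.nonneg c (c ω) ω').1 h2
    exact ⟨⟨hω'.1.1, h3.1.ne'⟩, h3.1.ne'⟩
  · refine her _ _ _ ?_ (hp G Prop E True hE _ h)
    intro ω' hω'
    have h1 : (G.res E True hE).p ω' ≠ 0 := hω'.2
    have h2 : 0 < cond G.p E True ω' := lt_of_le_of_ne (hE.nonneg ω') (Ne.symm h1)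
    have h3 := (cond_pos_iff G.isLaw.nonneg E True ω').1 h2
    exact ⟨⟨of_eq_true h3.2, hω'.1⟩, h3.1.ne'⟩

section

variable {α β : Type} {Y : ∀ F : Fam n J, F.Ω → α} {V : ∀ F : Fam n J, F.Ω → β}

/-- A small conditional entropy. -/
theorem gpr_lt (b : ℝ)
    (hY : ∀ (G : Fam n J) (κ : Type) (c : G.Ω → κ) (v : κ) (hl : IsLaw (cond G.p c v)),
      Y (G.res c v hl) = Y G)
    (hV : ∀ (G : Fam n J) (κ : Type) (c : G.Ω → κ) (v : κ) (hl : IsLaw (cond G.p c v)),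
      V (G.res c v hl) = V G) :
    GPr (fun (F : Fam n J) A => CH (cond F.p A True) (Y F) (fun ω => (V F ω, F.W ω)) < b) := by
  refine ⟨fun F A h => ?_, fun G κ c B hS hB h => ?_, fun G E hE B h => ?_⟩
  · rw [cond_supp]
    exact h
  · rw [cond_supp]
    refine ch_glue_lt G.isLaw _ _ c B hB ?_ fun ω hω hBω => ?_
    · intro ω ω' _ _ h5 h6 h7
      exact hS.2 ω ω' h5 h6 (Prod.ext_iff.1 (Prod.ext_iff.1 h7).2).2
    · have h1 := h ω hω hBω (isLaw_sec G.isLaw c hω)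
      rw [hY, hV] at h1
      exact h1
  · rw [hY, hV] at h
    have h3 := cond_part_eq hE B
    rw [← h3]
    exact h

/-- A large conditional entropy. -/
theorem gpr_ge (b : ℝ)
    (hY : ∀ (G : Fam n J) (κ : Type) (c : G.Ω → κ) (v : κ) (hl : IsLaw (cond G.p c v)),
      Y (G.res c v hl) = Y G)
    (hV : ∀ (G : Fam n J) (κ : Type) (c : G.Ω → κ) (v : κ) (hl : IsLaw (cond G.p c v)),
      V (G.res c v hl) = V G) :
    GPr (fun (F : Fam n J) A => b ≤ CH (cond F.p A True) (Y F) (fun ω => (V F ω, F.W ω))) := by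
  refine ⟨fun F A h => ?_, fun G κ c B hS hB h => ?_, fun G E hE B h => ?_⟩
  · rw [cond_supp]
    exact h
  · rw [cond_supp]
    refine ch_glue_ge G.isLaw _ _ c B hB ?_ fun ω hω hBω => ?_
    · intro ω ω' _ _ h5 h6 h7
      exact hS.2 ω ω' h5 h6 (Prod.ext_iff.1 (Prod.ext_iff.1 h7).2).2
    · have h1 := h ω hω hBω (isLaw_sec G.isLaw c hω)
      rw [hY, hV] at h1
      exact h1
  · rw [hY, hV] at h
    have h3 := cond_part_eq hE B
    rw [← h3]
    exact h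

end

/-- Inactivity. -/
theorem gpr_actC (N : ℚ → ℚ → ℝ) (h : ℝ) (c : ℕ) (k : Fin n) :
    GPr (fun F : Fam n J => ActC N h c k J F) := by
  refine ⟨inv0_const (inv0_actF N _ _ _ k), glu_const (glu_actF N _ _ _ k), fun G E hE B hR => ?_⟩
  refine ⟨hR.1, ?_⟩
  have h2 := hR.2
  unfold ActF at h2 ⊢
  have h3 := cond_part_eq hE B
  rw [← h3]
  exact h2

/-- The list with the inactivity. -/
def actL (N : ℚ → ℚ → ℝ) {ι : ℕ → ℕ → Type}
    (R : ∀ (i J : ℕ), ι i J → ∀ F : Fam n J, (F.Ω → Prop) → Prop) (i J : ℕ) :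
    ι i J ⊕ (Fin (i + 1) × Fin n) → ∀ F : Fam n J, (F.Ω → Prop) → Prop
  | Sum.inl a => fun F A => R i J a F A
  | Sum.inr (c, k) => fun F A => ActC N (1 / ((i : ℝ) + 1)) c k J F A

/-- **The class of the zooms in closed linear coordinates.** -/
theorem zoom_clb {S : PCl m} {C₀ : ℝ} (hC₀ : 0 ≤ C₀) (hbs : TmC S C₀) (hne : S.Ne) {w₁ : ℝ}
    (hw0 : 0 < w₁) (hw11 : w₁ < 1) {ε : Fin n → Fin m} {kap : Fin m}
    (hk0 : ∀ k : Fin n, (k : ℕ) = 0 → ε k = kap) {B₀ : ℝ} (hB₀ : 0 ≤ B₀) {cL : ℝ} {Dt : DtP m}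
    (hDt : ∀ (J : ℕ) (F : Fam m J) (A : F.Ω → Prop) (κ : Type) (C : Crd m κ) (z' : LnT F → κ),
      Dt J F A κ C z' → CrdK kap cL J F A κ C z')
    {ι : ℕ → ℕ → Type} [∀ i J, Fintype (ι i J)]
    {R : ∀ (i J : ℕ), ι i J → ∀ F : Fam n J, (F.Ω → Prop) → Prop}
    (Good : ∀ J : ℕ, Fam n J → Prop)
    (hcard : ∀ (i : ℕ) (e : ℝ), 0 < e → ∃ J₀ : ℕ, ∀ J ≥ J₀,
      (Fintype.card (ι i J) : ℝ) ≤ Real.exp (e * J))
    (hR : ∀ (i J : ℕ) (a : ι i J), GPr (R i J a))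
    (hGood : ∀ (J : ℕ) (G : Fam n J), Good J G → ∀ (κ : Type) (k : G.Ω → κ) (v : κ)
      (h : IsLaw (cond G.p k v)), Good J (G.res k v h))
    {K₁ : ℝ} (hK₁ : 0 < K₁)
    (hD : Bas S (fun J F A => ∃ B : F.Ω → Prop, Sub B A ∧ Pe F.p A ≤ K₁ * Pe F.p B ∧
      ∃ (κ : Type) (C : Crd m κ) (z : PtT F → κ) (z' : LnT F → κ),
        (∀ ω, B ω → z (ptr F J ω) = z' (slam F ⌊w₁ * J⌋₊ ω)) ∧ Dt J F B κ C z'))
    (hgood : ZBD S w₁ ε Dt (fun J G _ => Good J G))
    (hbad : ∀ i, ZBD S w₁ ε Dt (fun J G B => ¬ ∃ a : ι i J, R i J a G B)) :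
    ∃ S' : PCl n, ClB (NZR S kap B₀ w₁) S' ∧
      (∀ (τ : ℝ) (J : ℕ) (F : Fam n J) (A : F.Ω → Prop), S'.St τ J F A → Good J F) ∧
      ∀ i, Bas S' (fun J F A => ¬ ∃ a : ι i J, R i J a F A) := by
  classical
  obtain ⟨N, hN⟩ : ∃ N, N = NZR S kap B₀ w₁ := ⟨_, rfl⟩
  have hact : ∀ i : ℕ, ZBD S w₁ ε Dt (fun J G B =>
      ∀ (q q' : ℚ) (k : Fin n), (k : ℕ) = 0 → Encodable.encode (q, q') ≤ i → 0 ≤ q → q ≤ q' →
        q' ≤ 1 → ¬ ActF N q q' (1 / ((i : ℝ) + 1)) k J G B) := by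
    intro i
    rw [hN]
    exact (zbd_act hbs hw0 hw11 (fun k : Fin n => (k : ℕ) = 0) hk0 hB₀ (by positivity) cL i).data
      hDt
  have hall : ∀ i (J : ℕ) (a : ι i J ⊕ (Fin (i + 1) × Fin n)), GPr (actL N R i J a) := by
    rintro i J (a | ⟨c, k⟩)
    · exact hR i J a
    · exact gpr_actC N _ _ k
  have hcard' : ∀ (i : ℕ) (e : ℝ), 0 < e → ∃ J₀ : ℕ, ∀ J ≥ J₀,
      (Fintype.card (ι i J ⊕ (Fin (i + 1) × Fin n)) : ℝ) ≤ Real.exp (e * J) := by
    intro i e he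
    obtain ⟨J₁, hJ₁⟩ := hcard i (e / 2) (half_pos he)
    obtain ⟨J₂, hJ₂⟩ := exists_nat_ge
      (2 * (1 + (Fintype.card (Fin (i + 1) × Fin n) : ℝ)) / e)
    refine ⟨max J₁ J₂, fun J hJ => ?_⟩
    have h1 := hJ₁ J ((le_max_left _ _).trans hJ)
    have h2 : 2 * (1 + (Fintype.card (Fin (i + 1) × Fin n) : ℝ)) / e ≤ J :=
      hJ₂.trans (by exact_mod_cast (le_max_right _ _).trans hJ)
    rw [div_le_iff₀ he] at h2
    have h3 := Real.add_one_le_exp (e / 2 * J)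
    have h4 : Real.exp (e * J) = Real.exp (e / 2 * J) * Real.exp (e / 2 * J) := by
      rw [← Real.exp_add]
      congr 1
      ring
    rw [Fintype.card_sum]
    push_cast
    rw [h4]
    have h5 : (0 : ℝ) ≤ (Fintype.card (Fin (i + 1) × Fin n) : ℝ) := Nat.cast_nonneg _
    have h6 : (1 : ℝ) + (Fintype.card (Fin (i + 1) × Fin n) : ℝ) ≤ Real.exp (e / 2 * J) := by
      linarith
    have h7 : 1 ≤ Real.exp (e / 2 * J) := by linarith
    have h8 : (Fintype.card (ι i J) : ℝ) + (Fintype.card (Fin (i + 1) × Fin n) : ℝ) ≤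
        Real.exp (e / 2 * J) + (Real.exp (e / 2 * J) - 1) := by linarith
    have h9 : Real.exp (e / 2 * J) * 1 ≤ Real.exp (e / 2 * J) * Real.exp (e / 2 * J) :=
      mul_le_mul_of_nonneg_left h7 (by linarith)
    have h10 : 0 ≤ (Real.exp (e / 2 * J) - 1) * (Real.exp (e / 2 * J) - 1) :=
      mul_self_nonneg _
    have h11 : (Real.exp (e / 2 * J) - 1) * (Real.exp (e / 2 * J) - 1) =
      Real.exp (e / 2 * J) * Real.exp (e / 2 * J) - 2 * Real.exp (e / 2 * J) + 1 := by ring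
    linarith
  obtain ⟨S', hne', hmem, hS'⟩ := zoom_cls (ε := ε) (Dt := Dt) hC₀ hbs hne hw0 hw11
    (ι := fun i J => ι i J ⊕ (Fin (i + 1) × Fin n)) (R := actL N R)
    (fun J F => Gd F ∧ Good J F) hcard' (fun i J a => (hall i J a).inv)
    (fun i J a => (hall i J a).glu) (fun i J a => (hall i J a).sub)
    (fun J G hG => hG.1) (fun J G hG κ k v hl => ⟨hG.1, hGood J G hG.2 κ k v hl⟩) hK₁ hD
    (zbd_gd.and hgood) (fun i => ((hbad i).and (hact i)).mono (by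
      rintro J G B ⟨h1, h2⟩ ⟨a | ⟨c, k⟩, ha⟩
      · exact h1 ⟨a, ha⟩
      · obtain ⟨⟨h3, h4, h5⟩, h6⟩ := ha
        refine h2 _ _ k h3 ?_ h5.1 h5.2.1 h5.2.2 h6
        have h7 := c.2
        change Encodable.encode (dqc c) ≤ i
        omega))
  have hbas : ∀ i : ℕ, Bas S'.toP (fun J F A => ¬ ∃ a, actL N R i J a F A) := by
    intro i
    obtain ⟨κ, hκ, hc⟩ := hS' i
    refine Bas.mono 0 hc fun J _ F A h1 => h1 A ?_
    have h2 : Real.exp (-(κ * J)) ≤ 1 := by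
      rw [Real.exp_le_one_iff]
      have : 0 ≤ κ * (J : ℝ) := by positivity
      linarith
    calc _ ≤ 1 * Pe F.p A := mul_le_mul_of_nonneg_right h2 (Pe_nonneg F.isLaw A)
      _ = Pe F.p A := one_mul _
  refine ⟨S'.toP, ⟨hne', ?_, ?_⟩, ?_, fun i => ?_⟩
  · intro τ J F A hA
    have h1 : S'.St τ F A := hA
    have h2 := hmem τ J F h1.1
    exact ⟨S'.tr h1.1, S'.tm h1.1, S'.rb h1.1, h1.2, h2.1.1, h2.2⟩
  · intro k hk q q' h0 h1 h2 h hh
    obtain ⟨i, hi⟩ := exists_inv hh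
    obtain ⟨c, hc⟩ : ∃ c, c = Encodable.encode (q, q') := ⟨_, rfl⟩
    have hii : 1 / (((max i c : ℕ) : ℝ) + 1) ≤ h := by
      refine le_trans ?_ hi
      refine one_div_le_one_div_of_le (by positivity) ?_
      have : (i : ℝ) ≤ ((max i c : ℕ) : ℝ) := by exact_mod_cast le_max_left _ _
      linarith
    refine Bas.mono 0 (hbas (max i c)) fun J _ F A h3 => ?_
    by_contra hcon
    push Not at hcon
    refine h3 ⟨Sum.inr (⟨c, by
      have := le_max_right i c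
      omega⟩, k), ?_⟩
    change ActC N (1 / (((max i c : ℕ) : ℝ) + 1)) c k J F A
    unfold ActC
    rw [hc, dqc_encode]
    refine ⟨⟨hk, rfl, h0, h1, h2⟩, ?_⟩
    rw [← hc]
    unfold ActF
    have hcon' := hcon
    rw [← hN] at hcon'
    refine lt_of_lt_of_le hcon' ?_
    have hl2 : 0 ≤ Real.log 2 := (Real.log_pos one_lt_two).le
    exact mul_le_mul_of_nonneg_right (mul_le_mul_of_nonneg_right (by linarith) hl2)
      (Nat.cast_nonneg J)
  · intro τ J F A hA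
    have h1 : S'.St τ F A := hA
    exact (hmem τ J F h1.1).1.2
  · refine Bas.mono 0 (hbas i) fun J _ F A h1 => ?_
    rintro ⟨a, ha⟩
    exact h1 ⟨Sum.inl a, ha⟩

end Pool.ZLC
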