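import Pool.Agent.H9.ZC.Zne
import Pool.Agent.H62.TOP.Rw

/-!
# Zooms in closed linear coordinates and their classes

`zfc F w J' h C g e`: the zoom of `F` at the window `w` in the linear coordinates `C`, which are
functions of the closed data `g`, with the coordinates `e` only.
`ZBD S w₁ ε Dt Φ`: the statement `Φ` holds for all large events of the zooms of the families of the
class `S`, for all closed data with the property `Dt`.
`zoom_cls`: if closed data exist and the zooms have no bad property of a list on large events, then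
there is a nonempty class of families with constant side information which have no bad property of
the list on large events.
-/

set_option autoImplicit false

namespace Pool.ZLC

open Finset Real MvPolynomial
open Pool.Agent.H49.Ent Pool.Agent.H32.Dense Pool.STK Pool.KA Pool.KSAT Pool.K2S Pool.PB Pool.S6C
open Pool.GEN Pool.ZCL

variable {m n J : ℕ} {κ : Type}

/-- **The zoom in closed linear coordinates.** -/
noncomputable def zfc (F : Fam m J) (w J' : ℕ) (h : w + J' ≤ J) (C : Crd m κ) (g : F.Ω → κ)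
    (e : Fin n → Fin m) : Fam n J' := prj (F.zm w J' h C g) e

theorem zfc_id (F : Fam m J) (w J' : ℕ) (h : w + J' ≤ J) (g : F.Ω → κ) (e : Fin n → Fin m) :
    zfc F w J' h (idC m κ) g e = zf F w J' h g e := rfl

section

variable (F : Fam m J) {w J' : ℕ} (h : w + J' ≤ J) (C : Crd m κ) (g : F.Ω → κ)
  (e : Fin n → Fin m)

theorem zfc_Tm (hg : Det F.p (fun ω => (F.l ω, (F.T1 w ω, F.Z ω))) g) {e₀ : ℝ} (he : F.Tm e₀) :
    (zfc F w J' h C g e).Tm e₀ := by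
  have h1 := Pool.ZCL.zm_Tm F h C g hg he
  unfold Fam.Tm at h1 ⊢
  refine h1.trans (CH_mono_cond F.isLaw.nonneg (X := (F.zm w J' h C g).T)
    (W' := fun ω => ((F.zm w J' h C g).l ω, (F.zm w J' h C g).Z ω))
    (W := fun ω => ((zfc F w J' h C g e).l ω, (zfc F w J' h C g e).Z ω)) ?_)
  intro ω ω' _ _ e1
  have e2 := Prod.ext_iff.1 e1
  simp only at e2
  have e3 := Prod.ext_iff.1 e2.1
  refine Prod.ext (Prod.ext ?_ ?_) e2.2
  · funext i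
    exact congrFun e3.1 (e i)
  · funext i
    exact congrFun e3.2 (e i)

theorem zfc_x (ω : F.Ω) (i : Fin n) : |(zfc F w J' h C g e).x ω i -
    (2 ^ w * C.L (g ω) (F.x ω) (e i) - F.bcl w C g ω (e i) -
      tb F w ω * F.bvl C g ω (e i))| ≤ 3 / 2 ^ J' := by
  have h1 := Pool.ZCL.zm_x F h C g ω (e i)
  have h2 : (F.box w C g).t ω = tb F w ω := by
    have h3 := Box.box_t F (by omega : w ≤ J) C g ω
    unfold tb
    rw [h3]
    field_simp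
    ring
  rw [h2] at h1
  exact h1

theorem zfc_d (ω : F.Ω) (i : Fin n) : |(zfc F w J' h C g e).d ω i -
    (C.L (g ω) (F.d ω) (e i) - F.bvl C g ω (e i))| ≤ 1 / 2 ^ J' :=
  Pool.ZCL.zm_d F h C g ω (e i)

theorem zfc_Gd : Gd (zfc F w J' h C g e) := by
  have p0 : (0 : ℝ) < 2 ^ J' := by positivity
  have key : ∀ y : ℝ, 0 ≤ (⌊(2 : ℝ) ^ J' * Int.fract y⌋ : ℝ) / 2 ^ J' ∧
      (⌊(2 : ℝ) ^ J' * Int.fract y⌋ : ℝ) / 2 ^ J' ≤ 1 := by
    intro y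
    have h1 := Int.fract_nonneg y
    have h2 := (Int.fract_lt_one y).le
    have h3 : 0 ≤ ⌊(2 : ℝ) ^ J' * Int.fract y⌋ := Int.floor_nonneg.2 (by positivity)
    have h4 := Int.floor_le ((2 : ℝ) ^ J' * Int.fract y)
    refine ⟨div_nonneg (by exact_mod_cast h3) p0.le, ?_⟩
    rw [div_le_one p0]
    refine h4.trans ?_
    nlinarith
  intro ω i
  exact ⟨key (2 ^ w * C.L (g ω) (F.x1 w ω) (e i)), (key (C.L (g ω) (F.d ω) (e i))).1, ⟨_, rfl⟩,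
    ⟨_, rfl⟩⟩

end

/-- The properties of closed data. -/
def DtP (m : ℕ) : Type 1 :=
  ∀ (J : ℕ) (F : Fam m J) (_ : F.Ω → Prop) (κ : Type), Crd m κ → (LnT F → κ) → Prop

/-- **The statement holds for all large events of the zooms**, for all closed data with the
property `Dt`. -/
def ZBD (S : PCl m) (w₁ : ℝ) (ε : Fin n → Fin m) (Dt : DtP m) (Φ : Stat n) : Prop :=
  ∃ ψ : ℝ, 0 < ψ ∧ ∃ τ₀ : ℝ, 0 < τ₀ ∧ ∃ J₀ : ℕ, ∀ J ≥ J₀, ∀ (F : Fam m J) (A : F.Ω → Prop),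
    S.St τ₀ J F A → ∀ (κ : Type) (C : Crd m κ) (z : PtT F → κ) (z' : LnT F → κ),
    (∀ ω, A ω → z (ptr F J ω) = z' (slam F ⌊w₁ * J⌋₊ ω)) → Dt J F A κ C z' →
    ∀ (hl : IsLaw (Pool.Agent.H49.Ent.cond F.p A True)) (J' : ℕ) (hJ : ⌊w₁ * J⌋₊ + J' = J)
    (B : F.Ω → Prop), Real.exp (-(3 * ψ * J')) ≤ Pe (Pool.Agent.H49.Ent.cond F.p A True) B →
    Φ J' (zfc (F.res A True hl) ⌊w₁ * J⌋₊ J' hJ.le C (fun ω => z' (slam F ⌊w₁ * J⌋₊ ω)) ε) B

section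

variable {S : PCl m} {w₁ : ℝ} {ε : Fin n → Fin m} {Dt : DtP m} {Φ Φ' : Stat n}

theorem ZBD.mono (h : ZBD S w₁ ε Dt Φ)
    (hΦ : ∀ (J : ℕ) (F : Fam n J) (A : F.Ω → Prop), Φ J F A → Φ' J F A) : ZBD S w₁ ε Dt Φ' := by
  obtain ⟨ψ, hψ, τ₀, hτ₀, J₀, h⟩ := h
  exact ⟨ψ, hψ, τ₀, hτ₀, J₀, fun J hJ₀ F A hS κ C z z' hc hd hl J' hJ B hB =>
    hΦ _ _ _ (h J hJ₀ F A hS κ C z z' hc hd hl J' hJ B hB)⟩

theorem ZBD.and (h : ZBD S w₁ ε Dt Φ) (h' : ZBD S w₁ ε Dt Φ') :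
    ZBD S w₁ ε Dt (fun J F A => Φ J F A ∧ Φ' J F A) := by
  obtain ⟨ψ, hψ, τ₀, hτ₀, J₀, h⟩ := h
  obtain ⟨ψ', hψ', τ₀', hτ₀', J₀', h'⟩ := h'
  refine ⟨min ψ ψ', lt_min hψ hψ', min τ₀ τ₀', lt_min hτ₀ hτ₀', max J₀ J₀', ?_⟩
  intro J hJ₀ F A hS κ C z z' hc hd hl J' hJ B hB
  have hJ'0 : (0 : ℝ) ≤ J' := Nat.cast_nonneg J'
  have e1 : Real.exp (-(3 * ψ * J')) ≤ Real.exp (-(3 * min ψ ψ' * J')) :=
    Real.exp_le_exp.2 (neg_le_neg (mul_le_mul_of_nonneg_right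
      (mul_le_mul_of_nonneg_left (min_le_left _ _) (by norm_num)) hJ'0))
  have e2 : Real.exp (-(3 * ψ' * J')) ≤ Real.exp (-(3 * min ψ ψ' * J')) :=
    Real.exp_le_exp.2 (neg_le_neg (mul_le_mul_of_nonneg_right
      (mul_le_mul_of_nonneg_left (min_le_right _ _) (by norm_num)) hJ'0))
  exact ⟨h J ((le_max_left _ _).trans hJ₀) F A (S.mono (min_le_left _ _) hS) κ C z z' hc hd hl J'
    hJ B (e1.trans hB), h' J ((le_max_right _ _).trans hJ₀) F A (S.mono (min_le_right _ _) hS) κ C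
    z z' hc hd hl J' hJ B (e2.trans hB)⟩

theorem ZBD.le (N : ℕ) {Φ : ℕ → Stat n} (h : ∀ i, ZBD S w₁ ε Dt (Φ i)) :
    ZBD S w₁ ε Dt (fun J F A => ∀ i ≤ N, Φ i J F A) := by
  induction N with
  | zero =>
    refine (h 0).mono fun J F A h1 i hi => ?_
    have h2 : i = 0 := Nat.le_zero.1 hi
    rw [h2]
    exact h1
  | succ N ih =>
    refine (ih.and (h (N + 1))).mono fun J F A h1 i hi => ?_
    rcases Nat.le_succ_iff.1 hi with h2 | h2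
    · exact h1.1 i h2
    · rw [h2]
      exact h1.2

theorem ZBD.data {Dt' : DtP m} (h : ZBD S w₁ ε Dt Φ) (hd : ∀ (J : ℕ) (F : Fam m J)
    (A : F.Ω → Prop) (κ : Type) (C : Crd m κ) (z' : LnT F → κ), Dt' J F A κ C z' →
      Dt J F A κ C z') : ZBD S w₁ ε Dt' Φ := by
  obtain ⟨ψ, hψ, τ₀, hτ₀, J₀, h⟩ := h
  exact ⟨ψ, hψ, τ₀, hτ₀, J₀, fun J hJ₀ F A hS κ C z z' hc hD hl J' hJ B hB =>
    h J hJ₀ F A hS κ C z z' hc (hd _ _ _ _ _ _ hD) hl J' hJ B hB⟩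

/-- All zooms are good. -/
theorem zbd_gd : ZBD S w₁ ε Dt (fun _ G _ => Gd G) :=
  ⟨1, one_pos, 1, one_pos, 0, fun _ _ _ _ _ _ C _ _ _ _ _ _ hJ _ _ => zfc_Gd _ hJ.le C _ ε⟩

/-- **The class of the zooms.** -/
theorem zoom_cls {C₀ : ℝ} (hC₀ : 0 ≤ C₀) (hbs : TmC S C₀) (hne : S.Ne) (hw0 : 0 < w₁)
    (hw11 : w₁ < 1) {ι : ℕ → ℕ → Type} [∀ i J, Fintype (ι i J)]
    {R : ∀ (i J : ℕ), ι i J → ∀ F : Fam n J, (F.Ω → Prop) → Prop}
    (Good : ∀ J : ℕ, Fam n J → Prop)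
    (hcard : ∀ (i : ℕ) (e : ℝ), 0 < e → ∃ J₀ : ℕ, ∀ J ≥ J₀,
      (Fintype.card (ι i J) : ℝ) ≤ Real.exp (e * J))
    (hinv : ∀ (i J : ℕ) (a : ι i J), Inv0 (R i J a))
    (hgl : ∀ (i J : ℕ) (a : ι i J), GluP (R i J a))
    (hsub : ∀ (i J : ℕ) (a : ι i J) (G : Fam n J) (E : G.Ω → Prop)
      (h : IsLaw (cond G.p E True)) (B : G.Ω → Prop), R i J a (G.res E True h) B →
      R i J a G (fun ω => E ω ∧ B ω))
    (hGd : ∀ (J : ℕ) (G : Fam n J), Good J G → Gd G)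
    (hGood : ∀ (J : ℕ) (G : Fam n J), Good J G → ∀ (κ : Type) (k : G.Ω → κ) (v : κ)
      (h : IsLaw (cond G.p k v)), Good J (G.res k v h))
    {K₁ : ℝ} (hK₁ : 0 < K₁)
    (hD : Bas S (fun J F A => ∃ B : F.Ω → Prop, Sub B A ∧ Pe F.p A ≤ K₁ * Pe F.p B ∧
      ∃ (κ : Type) (C : Crd m κ) (z : PtT F → κ) (z' : LnT F → κ),
        (∀ ω, B ω → z (ptr F J ω) = z' (slam F ⌊w₁ * J⌋₊ ω)) ∧ Dt J F B κ C z'))
    (hgood : ZBD S w₁ ε Dt (fun J G _ => Good J G))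
    (hbad : ∀ i, ZBD S w₁ ε Dt (fun J G B => ¬ ∃ a : ι i J, R i J a G B)) :
    ∃ S' : FCl n, ZCls Good R S' := by
  classical
  have h01 : 0 < 1 - w₁ := by linarith
  choose ψ hψ τ₁ hτ₁ J₁ hz using hbad
  obtain ⟨ψg, hψg, τg, hτg, Jg, hzg⟩ := hgood
  obtain ⟨η, hη, M, J₂, hmain⟩ := zcl_ne Good hcard hinv hgl hsub hGd hGood ψ hψ
  obtain ⟨τm, hτm, hτm'⟩ := fmin45 M τ₁ hτ₁
  obtain ⟨τ, hτ⟩ : ∃ τ, τ = min (min τm τg) (η * (1 - w₁) / (C₀ + 1)) := ⟨_, rfl⟩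
  have hτ0 : 0 < τ := by
    rw [hτ]
    exact lt_min (lt_min hτm hτg) (div_pos (mul_pos hη h01) (by linarith))
  have t1 : τ ≤ τm := by rw [hτ]; exact (min_le_left _ _).trans (min_le_left _ _)
  have t2 : τ ≤ τg := by rw [hτ]; exact (min_le_left _ _).trans (min_le_right _ _)
  have t3 : C₀ * τ ≤ η * (1 - w₁) := by
    have h1 : τ ≤ η * (1 - w₁) / (C₀ + 1) := by rw [hτ]; exact min_le_right _ _
    rw [le_div_iff₀ (by linarith)] at h1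
    have e1 : τ * (C₀ + 1) = C₀ * τ + τ := by ring
    linarith
  obtain ⟨τD, hτD, JD, hD⟩ := hD
  obtain ⟨J₄, hJ₄⟩ := lin (J₂ : ℝ) h01
  obtain ⟨J₅, hJ₅⟩ := exists_nat_ge (Real.log K₁ / (τ / 2))
  obtain ⟨J, hJ, F, A, hA⟩ := hne (min τD (τ / 2)) (lt_min hτD (half_pos hτ0))
    (max (max (∑ i ∈ range (M + 1), J₁ i) Jg) (max JD (max J₄ J₅)))
  simp only [ge_iff_le, max_le_iff] at hJ
  obtain ⟨⟨hJ1, hJg⟩, hJD, hJ4, hJ5⟩ := hJ
  replace hJ4 := hJ₄ J hJ4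
  have hJr : (0 : ℝ) ≤ J := Nat.cast_nonneg J
  obtain ⟨B, hBA, hPB, κ', C, z, z', hcl, hDt⟩ := hD J hJD F A (S.mono (min_le_left _ _) hA)
  have hB : S.St τ J F B := by
    have h1 := S.res (τ' := τ / 2) (by positivity) (S.mono (min_le_right τD (τ / 2)) hA) hBA (by
      have h2 : Real.log K₁ / (τ / 2) ≤ J := hJ₅.trans (by exact_mod_cast hJ5)
      rw [div_le_iff₀ (by positivity)] at h2
      have h3 : Real.exp (-(τ / 2 * J)) ≤ 1 / K₁ := by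
        rw [one_div, ← Real.exp_log (inv_pos.2 hK₁), Real.log_inv]
        exact Real.exp_le_exp.2 (by linarith)
      calc Real.exp (-(τ / 2 * J)) * Pe F.p A ≤ 1 / K₁ * Pe F.p A :=
            mul_le_mul_of_nonneg_right h3 (Pe_nonneg F.isLaw A)
        _ ≤ 1 / K₁ * (K₁ * Pe F.p B) := mul_le_mul_of_nonneg_left hPB (by positivity)
        _ = Pe F.p B := by field_simp)
    rwa [add_halves] at h1
  obtain ⟨hB0, hTmB⟩ := hbs _ J F B hτ0 hB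
  have hl := isLaw_cond F.isLaw hB0
  -- the scale
  have hWJ : ⌊w₁ * (J : ℝ)⌋₊ ≤ J := by
    refine Nat.floor_le_of_le ?_
    have := mul_le_mul_of_nonneg_right hw11.le hJr
    linarith
  obtain ⟨J', hJ'⟩ : ∃ J', ⌊w₁ * (J : ℝ)⌋₊ + J' = J := ⟨J - ⌊w₁ * (J : ℝ)⌋₊, by omega⟩
  have hWr : (⌊w₁ * (J : ℝ)⌋₊ : ℝ) ≤ w₁ * J := Nat.floor_le (by positivity)
  have hsum : (⌊w₁ * (J : ℝ)⌋₊ : ℝ) + J' = J := by exact_mod_cast hJ'
  have hJ'0 : (0 : ℝ) ≤ J' := Nat.cast_nonneg J'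
  have hJ'1 : (1 - w₁) * J ≤ (J' : ℝ) := by
    have : (1 - w₁) * (J : ℝ) = J - w₁ * J := by ring
    linarith
  have hJ'2 : J₂ ≤ J' := by
    have : (J₂ : ℝ) ≤ J' := by linarith
    exact_mod_cast this
  have hTm : (zfc (F.res B True hl) ⌊w₁ * (J : ℝ)⌋₊ J' hJ'.le C
      (fun ω => z' (slam F ⌊w₁ * (J : ℝ)⌋₊ ω)) ε).Tm (η * J') := by
    have h1 := zfc_Tm (F.res B True hl) hJ'.le C (fun ω => z' (slam F ⌊w₁ * (J : ℝ)⌋₊ ω)) ε (by
      intro ω ω' _ _ hh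
      have a1 := Prod.ext_iff.1 hh
      have a2 := Prod.ext_iff.1 a1.2
      simp only at a1 a2
      have a3 : slam F ⌊w₁ * (J : ℝ)⌋₊ ω = slam F ⌊w₁ * (J : ℝ)⌋₊ ω' :=
        Prod.ext a1.1 (Prod.ext a2.2 a2.1)
      simp only
      rw [a3]) (hTmB hl)
    unfold Fam.Tm at h1 ⊢
    refine le_trans ?_ h1
    have h2 : C₀ * τ * J ≤ η * J' := by
      calc C₀ * τ * J ≤ η * (1 - w₁) * J := mul_le_mul_of_nonneg_right t3 hJr
        _ = η * ((1 - w₁) * J) := by ring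
        _ ≤ η * J' := mul_le_mul_of_nonneg_left hJ'1 hη.le
    linarith
  refine hmain ⟨J', hJ'2, _, hTm, ?_, fun i hi E hE => ?_⟩
  · exact hzg J hJg F B (S.mono t2 hB) κ' C z z' hcl hDt hl J' hJ' (fun _ => True) (by
      rw [Pe_univ hl]
      exact Real.exp_le_one_iff.2 (by
        have : 0 ≤ 3 * ψg * (J' : ℝ) := by positivity
        linarith))
  · have hJi : J₁ i ≤ J := (Finset.single_le_sum (f := J₁) (fun _ _ => Nat.zero_le _)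
      (Finset.mem_range.2 (by omega))).trans hJ1
    exact hz i J hJi F B (S.mono (t1.trans (hτm' i hi)) hB) κ' C z z' hcl hDt hl J' hJ' E hE

end

end Pool.ZLC
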