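import Pool.Agent.H73.TOP.Rz

/-!
# Classes from families without bad properties

`zcl_ne`: if families with side information and with small time deficit have no bad property of a
list on large events, then there is a nonempty class of families with constant side information
which have no bad property of the list on large events.
-/

set_option autoImplicit false

namespace Pool.ZLC

open Finset Real MvPolynomial
open Pool.Agent.H49.Ent Pool.Agent.H32.Dense Pool.STK Pool.KA Pool.KSAT Pool.K2S Pool.PB Pool.S6C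
open Pool.GEN Pool.ZCL

variable {n : ℕ}

/-- A class which is empty has all properties. -/
theorem bas_of_not_ne {S : PCl n} (h : ¬ S.Ne) (Φ : Stat n) : Bas S Φ := by
  unfold PCl.Ne at h
  push Not at h
  obtain ⟨τ, hτ, J₂, h1⟩ := h
  exact ⟨τ, hτ, J₂, fun J hJ F A hA => absurd hA (h1 J hJ F A)⟩

/-- The conclusion: a nonempty class of good families with constant side information, without the
bad properties on large events. -/
def ZCls {ι : ℕ → ℕ → Type} (Good : ∀ J : ℕ, Fam n J → Prop)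
    (R : ∀ (i J : ℕ), ι i J → ∀ F : Fam n J, (F.Ω → Prop) → Prop) (S : FCl n) : Prop :=
  S.toP.Ne ∧ (∀ (τ : ℝ) (J : ℕ) (F : Fam n J), S.T τ J F → Good J F ∧ Zc F) ∧
    ∀ i : ℕ, ∃ κ : ℝ, 0 < κ ∧ Bas S.toP (fun J F A => ∀ B : F.Ω → Prop,
      Real.exp (-(κ * J)) * Pe F.p A ≤ Pe F.p B → ¬ ∃ a : ι i J, R i J a F B)

/-- **A class from families without bad properties.** -/
theorem zcl_ne {ι : ℕ → ℕ → Type} [∀ i J, Fintype (ι i J)]
    {R : ∀ (i J : ℕ), ι i J → ∀ F : Fam n J, (F.Ω → Prop) → Prop}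
    (Good : ∀ J : ℕ, Fam n J → Prop)
    (hcard : ∀ (i : ℕ) (e : ℝ), 0 < e → ∃ J₀ : ℕ, ∀ J ≥ J₀,
      (Fintype.card (ι i J) : ℝ) ≤ Real.exp (e * J))
    (hinv : ∀ (i J : ℕ) (a : ι i J), Inv0 (R i J a))
    (hgl : ∀ (i J : ℕ) (a : ι i J), GluP (R i J a))
    (hsub : ∀ (i J : ℕ) (a : ι i J) (G : Fam n J) (E : G.Ω → Prop)
      (h : IsLaw (cond G.p E True)) (B : G.Ω → Prop), R i J a (G.res E True h) B →
      R i J a G (fun ω => E ω ∧ B ω))
    (hGd : ∀ (J : ℕ) (G : Fam n J), Good J G → Gd G)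
    (hGood : ∀ (J : ℕ) (G : Fam n J), Good J G → ∀ (κ : Type) (k : G.Ω → κ) (v : κ)
      (h : IsLaw (cond G.p k v)), Good J (G.res k v h))
    (ψ : ℕ → ℝ) (hψ : ∀ i, 0 < ψ i) : ∃ η : ℝ, 0 < η ∧ ∃ N J₁ : ℕ,
    (∃ J ≥ J₁, ∃ G : Fam n J, G.Tm (η * J) ∧ Good J G ∧ ∀ i ≤ N, ∀ B : G.Ω → Prop,
      Real.exp (-(3 * ψ i * J)) ≤ Pe G.p B → ¬ ∃ a : ι i J, R i J a G B) →
    ∃ S : FCl n, ZCls Good R S := by
  by_cases hex : ∃ S : FCl n, ZCls Good R S
  · exact ⟨1, one_pos, 0, 0, fun _ => hex⟩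
  obtain ⟨η, hη, N, J₁, h⟩ := zcl_low Good hcard hinv hgl hsub hGd hGood
    (y := fun _ => ()) (b := 1) zero_le_one (by
      intro S hS hbad
      have hno : ¬ S.toP.Ne := fun hne => hex ⟨S, hne, hS, hbad⟩
      exact clg_of_clp (bas_of_not_ne hno _).clp)
    ψ hψ (1 / 2) (by norm_num)
  refine ⟨η, hη, N, max J₁ 1, ?_⟩
  rintro ⟨J, hJ, G, hTm, hG, hno⟩
  exfalso
  rcases h J ((le_max_left _ _).trans hJ) G hTm hG with ⟨i, hi, B, hB, ha⟩ | h1
  · exact hno i hi B hB ha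
  · have hJ1 : (1 : ℝ) ≤ J := by exact_mod_cast (le_max_right _ _).trans hJ
    have h2 : CH G.p (fun ω => (fun _ : Fin n → ℤ => ()) (G.X J ω)) G.W = 0 :=
      CH_eq_zero G.isLaw.nonneg fun _ _ _ _ _ => rfl
    rw [h2] at h1
    linarith

end Pool.ZLC
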