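import Pool.Agent.H9.ZC.Zcb

/-!
# Sheared zooms

`shC cb u Lt hu M`: the linear coordinates in which the coordinates `k` in `Lt` are sheared in the
direction of the coordinate `u`, with the coefficients `cb`, and divided by `2 ^ M k`.
`zsh`: the zoom of a family at the window `w` in these coordinates, where the coefficients are a
function of the closed function `z'`.
`UPr Φ`: the property `Φ` of large events can be transferred from the sections of the side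
information to families without side information.
-/

set_option autoImplicit false

namespace Pool.ZLC

open Finset Real MvPolynomial
open Pool.Agent.H49.Ent Pool.Agent.H32.Dense Pool.STK Pool.KA Pool.KSAT Pool.K2S Pool.PB Pool.S6C
open Pool.GEN Pool.ZCL Pool.TOP

variable {m n J : ℕ} {V : Type}

/-- The number if it is at most `2 ^ M`. -/
noncomputable def clp (M : ℕ) (c : ℝ) : ℝ := if |c| ≤ 2 ^ M then c else 0

theorem clp_of {M : ℕ} {c : ℝ} (h : |c| ≤ 2 ^ M) : clp M c = c := if_pos h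

theorem clp_le (M : ℕ) (c : ℝ) : |clp M c| ≤ 2 ^ M := by
  unfold clp
  split_ifs with h
  · exact h
  · rw [abs_zero]
    positivity

/-- **The sheared coordinates.** -/
noncomputable def shC (cb : V → Fin m → ℝ) (u : Fin m) (Lt : Finset (Fin m)) (hu : u ∉ Lt)
    (M : Fin m → ℕ) : Crd m V where
  L := fun v x k => if k ∈ Lt then (x k - clp (M k) (cb v k) * x u) / 2 ^ M k else x k
  lin := by
    intro v x y t k
    simp only
    split_ifs
    · ring
    · rfl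
  inj := by
    intro v x y h
    have hxu : x u = y u := by
      have h1 := congrFun h u
      simp only [if_neg hu] at h1
      exact h1
    funext k
    have h1 := congrFun h k
    by_cases hk : k ∈ Lt
    · simp only [if_pos hk] at h1
      rw [div_left_inj' (by positivity), hxu] at h1
      linarith
    · simp only [if_neg hk] at h1
      exact h1

theorem shC_not {cb : V → Fin m → ℝ} {u : Fin m} {Lt : Finset (Fin m)} {hu : u ∉ Lt} {M : Fin m → ℕ}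
    {k : Fin m} (hk : k ∉ Lt) (v : V) (x : Fin m → ℝ) : (shC cb u Lt hu M).L v x k = x k :=
  if_neg hk

theorem shC_mem {cb : V → Fin m → ℝ} {u : Fin m} {Lt : Finset (Fin m)} {hu : u ∉ Lt} {M : Fin m → ℕ}
    {k : Fin m} (hk : k ∈ Lt) (v : V) (x : Fin m → ℝ) :
    (shC cb u Lt hu M).L v x k = (x k - clp (M k) (cb v k) * x u) / 2 ^ M k :=
  if_pos hk

/-- The sheared coordinates are Lipschitz functions. -/
theorem shC_bd (cb : V → Fin m → ℝ) (u : Fin m) (Lt : Finset (Fin m)) (hu : u ∉ Lt)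
    (M : Fin m → ℕ) : (shC cb u Lt hu M).Bd 0 2 := by
  intro v x y h k
  rw [pow_zero, mul_one]
  have p1 : (1 : ℝ) ≤ 2 ^ M k := one_le_pow₀ one_le_two
  by_cases hk : k ∈ Lt
  · rw [shC_mem hk, shC_mem hk]
    have e1 : (x k - clp (M k) (cb v k) * x u) / 2 ^ M k -
        (y k - clp (M k) (cb v k) * y u) / 2 ^ M k =
        ((x k - y k) - clp (M k) (cb v k) * (x u - y u)) / 2 ^ M k := by ring
    rw [e1, abs_div, abs_of_pos (by positivity : (0 : ℝ) < 2 ^ M k), div_le_iff₀ (by positivity)]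
    refine (abs_sub _ _).trans ?_
    rw [abs_mul]
    have h1 := h k
    have h2 := mul_le_mul (clp_le (M k) (cb v k)) (h u) (abs_nonneg _) (by positivity)
    linarith
  · rw [shC_not hk, shC_not hk]
    exact (h k).trans (by norm_num)

/-- **The sheared zoom**: window `w`, resolution `J'`, closed function `z'`, coefficients
`cb (z' _)`, direction `u`, sheared coordinates `k` in `Lt` (divided by `2 ^ M k`), coordinates
`e`. -/
noncomputable def zsh (F : Fam m J) (w J' : ℕ) (h : w + J' ≤ J) (z' : LnT F → V)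
    (cb : V → Fin m → ℝ) (u : Fin m) (Lt : Finset (Fin m)) (hu : u ∉ Lt) (M : Fin m → ℕ)
    (e : Fin n → Fin m) : Fam n J' :=
  zfc F w J' h (shC cb u Lt hu M) (fun ω => z' (slam F w ω)) e

/-- **The union of properties** which can be transferred; the number of the properties is
subexponential. -/
def UPr (Φ : Stat n) : Prop :=
  ∃ (ι : ℕ → Type) (_ : ∀ J, Fintype (ι J)) (R : ∀ J, ι J → ∀ F : Fam n J, (F.Ω → Prop) → Prop),
    (∀ e : ℝ, 0 < e → ∃ J₀ : ℕ, ∀ J ≥ J₀, (Fintype.card (ι J) : ℝ) ≤ Real.exp (e * J)) ∧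
    (∀ J a, GPr (R J a)) ∧
    ∀ (J : ℕ) (F : Fam n J) (A : F.Ω → Prop), Φ J F A ↔ ∃ a : ι J, R J a F A

theorem GPr.upr {Φ : Stat n} (h : ∀ J, GPr (fun (F : Fam n J) A => Φ J F A)) : UPr Φ := by
  refine ⟨fun _ => Unit, fun _ => inferInstance, fun J _ F A => Φ J F A, fun e he => ?_,
    fun J _ => h J, fun J F A => ⟨fun h1 => ⟨(), h1⟩, fun ⟨_, h1⟩ => h1⟩⟩
  refine ⟨0, fun J _ => ?_⟩
  rw [Fintype.card_unit, Nat.cast_one]
  exact Real.one_le_exp (by positivity)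

theorem inv0_supp {R : ∀ F : Fam n J, (F.Ω → Prop) → Prop} (h : GPr R) {F : Fam n J}
    {A : F.Ω → Prop} (hR : R F A) : R F (fun ω => A ω ∧ F.p ω ≠ 0) := h.inv F A hR

section

variable {S : PCl m} {w₁ : ℝ} {ε : Fin n → Fin m}

/-- **The class of the zooms**, the closed data may depend on the number of the bad properties. -/
theorem zoom_cls2 {C₀ : ℝ} (hC₀ : 0 ≤ C₀) (hbs : TmC S C₀) (hne : S.Ne) (hw0 : 0 < w₁)
    (hw11 : w₁ < 1) {ι : ℕ → ℕ → Type} [∀ i J, Fintype (ι i J)]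
    {R : ∀ (i J : ℕ), ι i J → ∀ F : Fam n J, (F.Ω → Prop) → Prop}
    (hcard : ∀ (i : ℕ) (e : ℝ), 0 < e → ∃ J₀ : ℕ, ∀ J ≥ J₀,
      (Fintype.card (ι i J) : ℝ) ≤ Real.exp (e * J))
    (hR : ∀ (i J : ℕ) (a : ι i J), GPr (R i J a))
    {ψ : ℕ → ℝ} (hψ : ∀ i, 0 < ψ i)
    (hD : ∀ M : ℕ, ∃ K₁ : ℝ, 0 < K₁ ∧ Bas S (fun J F A => ∃ B : F.Ω → Prop, Sub B A ∧
      Pe F.p A ≤ K₁ * Pe F.p B ∧ ∃ (κ : Type) (C : Crd m κ) (z : PtT F → κ) (z' : LnT F → κ),
        (∀ ω, B ω → z (ptr F J ω) = z' (slam F ⌊w₁ * J⌋₊ ω)) ∧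
        ∀ (hl : IsLaw (cond F.p B True)) (J' : ℕ) (hJ : ⌊w₁ * J⌋₊ + J' = J), ∀ i ≤ M,
          ∀ B' : F.Ω → Prop, Real.exp (-(3 * ψ i * J')) ≤ Pe (cond F.p B True) B' →
          ¬ ∃ a : ι i J', R i J' a (zfc (F.res B True hl) ⌊w₁ * J⌋₊ J' hJ.le C
            (fun ω => z' (slam F ⌊w₁ * J⌋₊ ω)) ε) B')) :
    ∃ S' : FCl n, ZCls (fun _ F => Gd F) R S' := by
  classical
  have h01 : 0 < 1 - w₁ := by linarith
  obtain ⟨η, hη, M, J₂, hmain⟩ := zcl_ne (R := R) (fun _ F => Gd F) hcard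
    (fun i J a => (hR i J a).inv) (fun i J a => (hR i J a).glu) (fun i J a => (hR i J a).sub)
    (fun _ _ h => h) (fun _ _ h _ _ _ _ => h) ψ hψ
  obtain ⟨K₁, hK₁, τD, hτD, JD, hD⟩ := hD M
  obtain ⟨τ, hτ⟩ : ∃ τ, τ = min 1 (η * (1 - w₁) / (C₀ + 1)) := ⟨_, rfl⟩
  have hτ0 : 0 < τ := by
    rw [hτ]
    exact lt_min one_pos (div_pos (mul_pos hη h01) (by linarith))
  have t3 : C₀ * τ ≤ η * (1 - w₁) := by
    have h1 : τ ≤ η * (1 - w₁) / (C₀ + 1) := by rw [hτ]; exact min_le_right _ _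
    rw [le_div_iff₀ (by linarith)] at h1
    have e1 : τ * (C₀ + 1) = C₀ * τ + τ := by ring
    linarith
  obtain ⟨J₄, hJ₄⟩ := lin (J₂ : ℝ) h01
  obtain ⟨J₅, hJ₅⟩ := exists_nat_ge (Real.log K₁ / (τ / 2))
  obtain ⟨J, hJ, F, A, hA⟩ := hne (min τD (τ / 2)) (lt_min hτD (half_pos hτ0))
    (max JD (max J₄ J₅))
  simp only [ge_iff_le, max_le_iff] at hJ
  obtain ⟨hJD, hJ4, hJ5⟩ := hJ
  replace hJ4 := hJ₄ J hJ4
  have hJr : (0 : ℝ) ≤ J := Nat.cast_nonneg J
  obtain ⟨B, hBA, hPB, κ', C, z, z', hcl, hDt⟩ := hD J hJD F A (S.mono (min_le_left _ _) hA)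
  have hB : S.St τ J F B := by
    have h1 := S.res (τ' := τ / 2) (by positivity) (S.mono (min_le_right τD (τ / 2)) hA) hBA (by
      have h2 : Real.log K₁ / (τ / 2) ≤ J := hJ₅.trans (by exact_mod_cast hJ5)
      rw [div_le_iff₀ (by positivity)] at h2
      have h3 : Real.exp (-(τ / 2 * J)) ≤ 1 / K₁ := by
        rw [one_div, ← Real.exp_log (inv_pos.2 hK₁), Real.log_inv]
        exact Real.exp_le_exp.2 (by linarith)
      calc Real.exp (-(τ / 2 * J)) * Pe F.p A ≤ 1 / K₁ * Pe F.p A :=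
            mul_le_mul_of_nonneg_right h3 (Pe_nonneg F.isLaw A)
        _ ≤ 1 / K₁ * (K₁ * Pe F.p B) := mul_le_mul_of_nonneg_left hPB (by positivity)
        _ = Pe F.p B := by field_simp)
    rwa [add_halves] at h1
  obtain ⟨hB0, hTmB⟩ := hbs _ J F B hτ0 hB
  have hl := isLaw_cond F.isLaw hB0
  have hWJ : ⌊w₁ * (J : ℝ)⌋₊ ≤ J := by
    refine Nat.floor_le_of_le ?_
    have := mul_le_mul_of_nonneg_right hw11.le hJr
    linarith
  obtain ⟨J', hJ'⟩ : ∃ J', ⌊w₁ * (J : ℝ)⌋₊ + J' = J := ⟨J - ⌊w₁ * (J : ℝ)⌋₊, by omega⟩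
  have hWr : (⌊w₁ * (J : ℝ)⌋₊ : ℝ) ≤ w₁ * J := Nat.floor_le (by positivity)
  have hsum : (⌊w₁ * (J : ℝ)⌋₊ : ℝ) + J' = J := by exact_mod_cast hJ'
  have hJ'0 : (0 : ℝ) ≤ J' := Nat.cast_nonneg J'
  have hJ'1 : (1 - w₁) * J ≤ (J' : ℝ) := by
    have : (1 - w₁) * (J : ℝ) = J - w₁ * J := by ring
    linarith
  have hJ'2 : J₂ ≤ J' := by
    have : (J₂ : ℝ) ≤ J' := by linarith
    exact_mod_cast this
  have hTm : (zfc (F.res B True hl) ⌊w₁ * (J : ℝ)⌋₊ J' hJ'.le C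
      (fun ω => z' (slam F ⌊w₁ * (J : ℝ)⌋₊ ω)) ε).Tm (η * J') := by
    have h1 := zfc_Tm (F.res B True hl) hJ'.le C (fun ω => z' (slam F ⌊w₁ * (J : ℝ)⌋₊ ω)) ε (by
      intro ω ω' _ _ hh
      have a1 := Prod.ext_iff.1 hh
      have a2 := Prod.ext_iff.1 a1.2
      simp only at a1 a2
      have a3 : slam F ⌊w₁ * (J : ℝ)⌋₊ ω = slam F ⌊w₁ * (J : ℝ)⌋₊ ω' :=
        Prod.ext a1.1 (Prod.ext a2.2 a2.1)
      simp only
      rw [a3]) (hTmB hl)
    unfold Fam.Tm at h1 ⊢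
    refine le_trans ?_ h1
    have h2 : C₀ * τ * J ≤ η * J' := by
      calc C₀ * τ * J ≤ η * (1 - w₁) * J := mul_le_mul_of_nonneg_right t3 hJr
        _ = η * ((1 - w₁) * J) := by ring
        _ ≤ η * J' := mul_le_mul_of_nonneg_left hJ'1 hη.le
    linarith
  exact hmain ⟨J', hJ'2, _, hTm, zfc_Gd _ hJ'.le C _ ε, fun i hi E hE =>
    hDt hl J' hJ' i hi E hE⟩

end

end Pool.ZLC
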